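import Pool.Agent.Lib.MP_c03ca8_nt.Factor

/-!
Explicit bounds for the prime sums and products in the sieve inequality.
-/

open Finset Real

namespace Pool.Agent.Lib.MP_c03ca8_nt

lemma log7_ge : 19365 / 10000 ≤ log 7 := by
  have h4 := log_le_sub_one_of_pos (show (0 : ℝ) < 2 ^ 3 / 7 by norm_num)
  rw [log_div (by norm_num) (by norm_num), log_pow] at h4
  have := log_two_gt_d9
  push_cast at h4
  linarith

lemma log7_le : log 7 ≤ 19545 / 10000 := by
  have h4 := log_le_sub_one_of_pos (show (0 : ℝ) < 7 / 2 ^ 3 by norm_num)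
  rw [log_div (by norm_num) (by norm_num), log_pow] at h4
  have := log_two_lt_d9
  push_cast at h4
  linarith

lemma log_nat_mono : Monotone fun m : ℕ => log (m : ℝ) := by
  intro a b hab
  rcases Nat.eq_zero_or_pos a with rfl | ha
  · simpa using log_natCast_nonneg b
  · exact log_le_log (by exact_mod_cast ha) (by exact_mod_cast hab)

lemma cc_le (m : ℕ) : cc m ≤ 326 / 1000 := by
  unfold cc
  split_ifs with h
  · have h7 : (7 : ℝ) ≤ m := by exact_mod_cast h.2
    have h4 := log_le_sub_one_of_pos (show (0 : ℝ) < m / 7 by positivity)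
    rw [log_div (by positivity) (by norm_num)] at h4
    rw [div_le_iff₀ (by linarith)]
    linarith [log7_le]
  · norm_num

lemma aa_mono : Monotone aa := fun _ _ hab =>
  sum_le_sum_of_subset_of_nonneg (range_subset_range.mpr (by omega)) fun m _ _ => cc_nonneg m

lemma aa_of_lt {t : ℕ} (h : t < 7) : aa t = 0 :=
  sum_eq_zero fun m hm => if_neg fun hc => by have := mem_range.mp hm; omega

lemma aa_nonneg (t : ℕ) : 0 ≤ aa t := sum_nonneg fun m _ => cc_nonneg m

lemma pr_prime {t : ℕ} : ∀ l ∈ pr t, l.Prime ∧ 7 ≤ l := fun _ hl => (mem_pr.mp hl).2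

lemma sum_pr_log (u : ℕ) : ∑ p ∈ pr u, 4 / ((p : ℝ) - 1) * log p = 4 * aa u := by
  rw [aa, pr, sum_filter, mul_sum]
  refine sum_congr rfl fun m _ => ?_
  unfold cc
  split_ifs <;> ring

lemma cc_div_log {m : ℕ} (h : m.Prime ∧ 7 ≤ m) : cc m / log m = 1 / ((m : ℝ) - 1) := by
  have h7 : (7 : ℝ) ≤ m := by exact_mod_cast h.2
  have h1 : 0 < log (m : ℝ) := log_pos (by linarith)
  have h2 : (m : ℝ) - 1 ≠ 0 := by linarith
  rw [cc, if_pos h]
  field_simp

lemma tail_sum {u Y : ℕ} {ζ : ℝ} (hζ : 0 < ζ) (h : ζ - 6 / 5 ≤ aa u) :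
    ∑ p ∈ pr Y \ pr u, 1 / ((p : ℝ) - 1) ≤ log (max (log Y) ζ / ζ) := by
  have key := abel_inv (fun m => if u < m then cc m else 0) (fun m => max (log m) ζ) ζ 0 hζ le_rfl
    (le_max_right _ _) (fun a b hab => max_le_max (log_nat_mono hab) le_rfl) Y (by
      intro t _
      rcases le_or_gt t u with htu | htu
      · rw [sum_eq_zero fun m hm => if_neg (by have := mem_range.mp hm; omega)]
        linarith [le_max_right (log t) ζ]
      have e : ∑ m ∈ range (t + 1), (if u < m then cc m else 0) = aa t - aa u := by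
        rw [aa, aa, ← sum_range_add_sum_Ico _ (show u + 1 ≤ t + 1 by omega),
          ← sum_range_add_sum_Ico cc (show u + 1 ≤ t + 1 by omega),
          sum_eq_zero fun m hm => if_neg (by have := mem_range.mp hm; omega),
          sum_congr rfl fun m hm => if_pos (by have := (mem_Ico.mp hm).1; omega)]
        ring
      rw [e]
      rcases lt_or_ge t 7 with h7 | h7
      · linarith [aa_of_lt h7, aa_nonneg u, le_max_right (log t) ζ]
      · linarith [aa_le h7, le_max_left (log t) ζ])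
  rw [zero_div, add_zero] at key
  refine le_trans ?_ key
  calc _ = ∑ p ∈ pr Y \ pr u, (if u < p then cc p else 0) / max (log p) ζ := by
        refine sum_congr rfl fun p hp => ?_
        obtain ⟨h1, h2⟩ := mem_sdiff.mp hp
        have h3 := (mem_pr.mp h1).2
        have h4 : u < p := by
          by_contra hc
          exact h2 (mem_pr.mpr ⟨not_lt.mp hc, h3⟩)
        rw [if_pos h4, max_eq_left, cc_div_log h3]
        linarith [aa_le h3.2, aa_mono h4.le]
    _ ≤ _ := by
        refine sum_le_sum_of_subset_of_nonneg (sdiff_subset.trans (filter_subset _ _))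
          fun m _ _ => div_nonneg ?_ (hζ.le.trans (le_max_right _ _))
        split_ifs
        · exact cc_nonneg m
        · exact le_rfl

lemma head_sum {u : ℕ} {ζ : ℝ} (hζ : log 7 ≤ ζ) (h : aa u ≤ ζ - 6 / 5) :
    ∑ p ∈ pr u, 1 / ((p : ℝ) - 1) ≤ log (ζ / log 7) + (log 7 - 6 / 5) / log 7 := by
  have l7 := log7_ge
  have key := abel_inv cc (fun m => min (max (log m) (log 7)) ζ) (log 7) (log 7 - 6 / 5)
    (by linarith) (by linarith) (le_min (le_max_right _ _) hζ)
    (fun a b hab => min_le_min (max_le_max (log_nat_mono hab) le_rfl) le_rfl) u (by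
      intro t ht
      have h1 : aa t + 6 / 5 ≤ min (max (log t) (log 7)) ζ := by
        refine le_min ?_ (by linarith [aa_mono ht])
        rcases lt_or_ge t 7 with h7 | h7
        · linarith [aa_of_lt h7, le_max_right (log t) (log 7)]
        · linarith [aa_le h7, le_max_left (log t) (log 7)]
      unfold aa at h1
      linarith)
  have hpos : ∀ m : ℕ, 0 < min (max (log m) (log 7)) ζ := fun m =>
    lt_min (lt_of_lt_of_le (by linarith) (le_max_right _ _)) (by linarith)
  calc _ ≤ ∑ p ∈ pr u, cc p / min (max (log p) (log 7)) ζ := by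
        refine sum_le_sum fun p hp => ?_
        have h3 := (mem_pr.mp hp).2
        rw [← cc_div_log h3]
        refine div_le_div_of_nonneg_left (cc_nonneg p) (hpos p) ((min_le_left _ _).trans ?_)
        exact max_le le_rfl (log_le_log (by norm_num) (by exact_mod_cast h3.2))
    _ ≤ _ := sum_le_sum_of_subset_of_nonneg (filter_subset _ _) fun m _ _ =>
        div_nonneg (cc_nonneg m) (hpos m).le
    _ ≤ _ := key
    _ ≤ _ := by
        have := hpos u
        have h1 := min_le_right (max (log u) (log 7)) ζ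
        gcongr

lemma local_bound {p : ℕ} (h : p.Prime ∧ 7 ≤ p) :
    (1 + kk p / p) ^ 2 ≤ (1 + hh p) * exp (4 * (1 / ((p : ℝ) - 1)) + 21 / 2 * (cc p / p)) := by
  have h7 : (7 : ℝ) ≤ p := by exact_mod_cast h.2
  have h1 : (0 : ℝ) < p - 1 := by linarith
  have h4 : (0 : ℝ) < p - 4 := by linarith
  have h0 : (0 : ℝ) < p := by linarith
  have hh0 := hh_pos h.2
  have e1 : 1 + kk p / p = (1 + 4 / (p : ℝ) ^ 2) * (1 + hh p) := by
    unfold kk hh; field_simp; ring
  have g1 : (1 + 4 / (p : ℝ) ^ 2) ^ 2 ≤ exp (8 / (p : ℝ) ^ 2) := by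
    rw [show 8 / (p : ℝ) ^ 2 = (2 : ℕ) * (4 / (p : ℝ) ^ 2) by push_cast; ring, exp_nat_mul]
    gcongr
    linarith [add_one_le_exp (4 / (p : ℝ) ^ 2)]
  have g2 : (1 + 1 / ((p : ℝ) - 1)) ^ 4 ≤ exp (4 * (1 / ((p : ℝ) - 1))) := by
    rw [show (4 : ℝ) * (1 / ((p : ℝ) - 1)) = (4 : ℕ) * (1 / ((p : ℝ) - 1)) by push_cast; ring,
      exp_nat_mul]
    gcongr
    linarith [add_one_le_exp (1 / ((p : ℝ) - 1))]
  have g3 : 1 + 6 / ((p : ℝ) * (p - 4)) ≤ exp (6 / ((p : ℝ) * (p - 4))) := by
    linarith [add_one_le_exp (6 / ((p : ℝ) * (p - 4)))]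
  have g4 : 1 + hh p ≤ (1 + 1 / ((p : ℝ) - 1)) ^ 4 * (1 + 6 / ((p : ℝ) * (p - 4))) := by
    have e : (1 + 1 / ((p : ℝ) - 1)) ^ 4 * (1 + 6 / ((p : ℝ) * (p - 4))) - (1 + hh p) =
        p * (4 * p - 1) / ((p - 1) ^ 4 * (p - 4)) := by
      unfold hh; field_simp; ring
    have : (0 : ℝ) ≤ p * (4 * p - 1) / ((p - 1) ^ 4 * (p - 4)) :=
      div_nonneg (mul_nonneg h0.le (by linarith)) (by positivity)
    linarith
  have g5 : 8 / (p : ℝ) ^ 2 + 6 / ((p : ℝ) * (p - 4)) ≤ 21 / 2 * (cc p / p) := by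
    have a1 : 8 / (p : ℝ) ^ 2 ≤ 8 / (p * (p - 1)) := by
      apply div_le_div_of_nonneg_left (by norm_num) (by positivity); nlinarith
    have a2 : 6 / ((p : ℝ) * (p - 4)) ≤ 12 / (p * (p - 1)) := by
      rw [div_le_div_iff₀ (by positivity) (by positivity)]; nlinarith
    have a3 : 19365 / 10000 ≤ log (p : ℝ) := log7_ge.trans (log_le_log (by norm_num) h7)
    have e : 21 / 2 * (cc p / p) = 21 / 2 * log p / (p * (p - 1)) := by
      rw [cc, if_pos h]; field_simp
    have a4 : 20 / ((p : ℝ) * (p - 1)) ≤ 21 / 2 * log p / (p * (p - 1)) :=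
      div_le_div_of_nonneg_right (by linarith) (by positivity)
    have e2 : 20 / ((p : ℝ) * (p - 1)) = 8 / (p * (p - 1)) + 12 / (p * (p - 1)) := by ring
    linarith
  rw [e1, mul_pow]
  calc _ = (1 + hh p) * ((1 + 4 / (p : ℝ) ^ 2) ^ 2 * (1 + hh p)) := by ring
    _ ≤ (1 + hh p) * (exp (8 / (p : ℝ) ^ 2) *
        (exp (4 * (1 / ((p : ℝ) - 1))) * exp (6 / ((p : ℝ) * (p - 4))))) := by
        gcongr
        exact g4.trans (by gcongr)
    _ ≤ _ := by
        rw [← exp_add, ← exp_add]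
        exact mul_le_mul_of_nonneg_left (exp_le_exp.mpr (by linarith)) (by linarith)

lemma prod_bound (u : ℕ) : (∏ l ∈ pr u, (1 + kk l / l)) ^ 2 ≤
    (∏ l ∈ pr u, (1 + hh l)) * exp (4 * ∑ p ∈ pr u, 1 / ((p : ℝ) - 1) + 178 / 100) := by
  have h1 : ∑ p ∈ pr u, cc p / p ≤ 169 / 1000 := by
    have h2 := sum_div_le (max u 299) (le_max_right _ _)
    have h3 : 0 ≤ (log (max u 299 : ℕ) + 101 / 100) / (max u 299 : ℕ) := by
      have := log_natCast_nonneg (max u 299)
      positivity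
    have h4 : ∑ p ∈ pr u, cc p / p ≤ ∑ m ∈ range (max u 299 + 1), cc m / m :=
      sum_le_sum_of_subset_of_nonneg ((filter_subset _ _).trans
        (range_subset_range.mpr (by omega))) fun m _ _ =>
        div_nonneg (cc_nonneg m) (Nat.cast_nonneg m)
    linarith
  rw [← prod_pow]
  calc _ ≤ ∏ p ∈ pr u, ((1 + hh p) * exp (4 * (1 / ((p : ℝ) - 1)) + 21 / 2 * (cc p / p))) :=
        prod_le_prod (fun _ _ => sq_nonneg _) fun p hp => local_bound (pr_prime p hp)
    _ = (∏ l ∈ pr u, (1 + hh l)) *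
        exp (4 * ∑ p ∈ pr u, 1 / ((p : ℝ) - 1) + 21 / 2 * ∑ p ∈ pr u, cc p / p) := by
        rw [prod_mul_distrib, ← exp_sum, sum_add_distrib, ← mul_sum, ← mul_sum]
    _ ≤ _ := by
        refine mul_le_mul_of_nonneg_left (exp_le_exp.mpr (by linarith)) ?_
        exact prod_nonneg fun l hl => by linarith [hh_pos (pr_prime l hl).2]

end Pool.Agent.Lib.MP_c03ca8_nt
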