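import Pool.Agent.Lib.MP_c03ca8_nt.Sieve

/-!
Positivity of the sieve form for the test function `max (L - log r) 0`.
-/

open Finset Real

namespace Pool.Agent.Lib.MP_c03ca8_nt

/-- Logarithm of the product of a set of primes. -/
noncomputable def tt (r : Finset ℕ) : ℝ := ∑ l ∈ r, log l

/-- The test function. -/
noncomputable def yy (L : ℝ) (r : Finset ℕ) : ℝ := max (L - tt r) 0

/-- Product of `hh` over a set. -/
noncomputable def hp (r : Finset ℕ) : ℝ := ∏ l ∈ r, hh l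

variable {P : Finset ℕ}

lemma hp_nonneg (hP : ∀ l ∈ P, l.Prime ∧ 7 ≤ l) {r : Finset ℕ} (hr : r ⊆ P) : 0 ≤ hp r :=
  prod_nonneg fun l hl => (hh_pos (hP l (hr hl)).2).le

lemma yy_nonneg (L : ℝ) (r : Finset ℕ) : 0 ≤ yy L r := le_max_right _ _

lemma notMem_of_erase {p : ℕ} {r : Finset ℕ} (hr : r ∈ (P.erase p).powerset) : p ∉ r :=
  fun hc => notMem_erase p P (mem_powerset.mp hr hc)

lemma yy_diff (L : ℝ) {p : ℕ} {r : Finset ℕ} (h : p ∉ r) :
    0 ≤ yy L r - yy L (insert p r) ∧ yy L r - yy L (insert p r) ≤ log p := by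
  have h1 : tt (insert p r) = log p + tt r := sum_insert h
  have h2 := log_natCast_nonneg p
  unfold yy
  rw [h1]
  constructor
  · have : max (L - (log p + tt r)) 0 ≤ max (L - tt r) 0 := max_le_max (by linarith) le_rfl
    linarith
  · have : max (L - tt r) 0 ≤ max (L - (log p + tt r)) 0 + log p := by
      apply max_le
      · linarith [le_max_left (L - (log p + tt r)) 0]
      · linarith [le_max_right (L - (log p + tt r)) 0]
    linarith

lemma sum_split (G : Finset ℕ → ℝ) {p : ℕ} (hpP : p ∈ P) :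
    ∑ r ∈ P.powerset, G r =
      ∑ r ∈ (P.erase p).powerset, G r + ∑ r ∈ (P.erase p).powerset, G (insert p r) := by
  conv_lhs => rw [← insert_erase hpP]
  rw [sum_powerset_insert (notMem_erase p P)]

lemma sum_mul_tt (G : Finset ℕ → ℝ) : ∑ r ∈ P.powerset, G r * tt r =
    ∑ p ∈ P, log p * ∑ r ∈ (P.erase p).powerset, G (insert p r) := by
  have e1 : ∀ r ∈ P.powerset, G r * tt r = ∑ p ∈ P, log p * (if p ∈ r then G r else 0) := by
    intro r hr
    simp only [mul_ite, mul_zero]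
    rw [sum_ite_mem, inter_eq_right.mpr (mem_powerset.mp hr), tt, mul_sum]
    exact sum_congr rfl fun _ _ => mul_comm _ _
  rw [sum_congr rfl e1, sum_comm]
  refine sum_congr rfl fun p hpP => ?_
  rw [← mul_sum, sum_split _ hpP, sum_eq_zero (fun r hr => if_neg (notMem_of_erase hr)), zero_add]
  simp

lemma hp_insert {p : ℕ} {r : Finset ℕ} (h : p ∉ r) : hp (insert p r) = hh p * hp r :=
  prod_insert h

lemma hh_le {p : ℕ} (h7 : 7 ≤ p) : hh p ≤ 4 / ((p : ℝ) - 1) * (1 + hh p) := by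
  have h : (7 : ℝ) ≤ p := by exact_mod_cast h7
  have h1 : (0 : ℝ) < p - 4 := by linarith
  have h2 : (0 : ℝ) < p - 1 := by linarith
  have e : 4 / ((p : ℝ) - 1) * (1 + hh p) - hh p = 4 / ((p - 1) * (p - 4)) := by
    unfold hh; field_simp; ring
  have : (0 : ℝ) < 4 / ((p - 1) * (p - 4)) := by positivity
  linarith

lemma first_moment (hP : ∀ l ∈ P, l.Prime ∧ 7 ≤ l) (L : ℝ) :
    (L - ∑ p ∈ P, 4 / ((p : ℝ) - 1) * log p) * ∏ l ∈ P, (1 + hh l) ≤
      ∑ r ∈ P.powerset, hp r * yy L r := by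
  have e0 : ∏ l ∈ P, (1 + hh l) = ∑ r ∈ P.powerset, hp r := prod_one_add P
  have h1 : ∑ r ∈ P.powerset, hp r * tt r ≤
      (∑ p ∈ P, 4 / ((p : ℝ) - 1) * log p) * ∑ r ∈ P.powerset, hp r := by
    rw [sum_mul_tt, sum_mul]
    refine sum_le_sum fun p hpP => ?_
    have e1 : ∑ r ∈ (P.erase p).powerset, hp (insert p r) =
        hh p * ∑ r ∈ (P.erase p).powerset, hp r := by
      rw [mul_sum]
      exact sum_congr rfl fun r hr => hp_insert (notMem_of_erase hr)
    have h2 : 0 ≤ ∑ r ∈ (P.erase p).powerset, hp r := sum_nonneg fun r hr =>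
      hp_nonneg hP ((mem_powerset.mp hr).trans (erase_subset _ _))
    rw [sum_split hp hpP, e1]
    have h3 := mul_le_mul_of_nonneg_right (hh_le (hP p hpP).2) h2
    have h4 := mul_le_mul_of_nonneg_left h3 (log_natCast_nonneg p)
    linarith
  have h2 : ∑ r ∈ P.powerset, hp r * (L - tt r) ≤ ∑ r ∈ P.powerset, hp r * yy L r :=
    sum_le_sum fun r hr =>
      mul_le_mul_of_nonneg_left (le_max_left _ _) (hp_nonneg hP (mem_powerset.mp hr))
  have e2 : ∑ r ∈ P.powerset, hp r * (L - tt r) =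
      L * ∑ r ∈ P.powerset, hp r - ∑ r ∈ P.powerset, hp r * tt r := by
    rw [mul_sum, ← sum_sub_distrib]
    exact sum_congr rfl fun _ _ => by ring
  rw [e0]
  linarith

lemma dirichlet (hP : ∀ l ∈ P, l.Prime ∧ 7 ≤ l) (L : ℝ) :
    (L - ∑ p ∈ P, 4 / ((p : ℝ) - 1) * log p) * ∑ r ∈ P.powerset, hp r * yy L r +
      ∑ p ∈ P, 4 / ((p : ℝ) - 1) * mainT (P.erase p) (fun r => yy L r - yy L (insert p r)) ≤
      mainT P (yy L) := by
  set Z := ∑ r ∈ P.powerset, hp r * yy L r with hZ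
  have e1 : mainT P (yy L) = L * Z - ∑ r ∈ P.powerset, hp r * yy L r * tt r := by
    rw [mainT, hZ, mul_sum, ← sum_sub_distrib]
    refine sum_congr rfl fun r _ => ?_
    have : yy L r ^ 2 = yy L r * (L - tt r) := by
      unfold yy
      rcases le_total (L - tt r) 0 with h | h
      · rw [max_eq_right h]; ring
      · rw [max_eq_left h]; ring
    rw [this, hp]; ring
  rw [e1, sum_mul_tt, sub_mul, sum_mul]
  have h2 : ∀ p ∈ P, 4 / ((p : ℝ) - 1) * mainT (P.erase p) (fun r => yy L r - yy L (insert p r))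
      + log p * ∑ r ∈ (P.erase p).powerset, hp (insert p r) * yy L (insert p r) ≤
      4 / ((p : ℝ) - 1) * log p * Z := by
    intro p hpP
    have h7 : (7 : ℝ) ≤ p := by exact_mod_cast (hP p hpP).2
    have hu : 0 ≤ 4 / ((p : ℝ) - 1) := div_nonneg (by norm_num) (by linarith)
    have hnn : ∀ r ∈ (P.erase p).powerset, 0 ≤ hp r := fun r hr =>
      hp_nonneg hP ((mem_powerset.mp hr).trans (erase_subset _ _))
    set A := ∑ r ∈ (P.erase p).powerset, hp r * yy L r with hA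
    set B := ∑ r ∈ (P.erase p).powerset, hp r * yy L (insert p r) with hB
    have hB0 : 0 ≤ B := sum_nonneg fun r hr => mul_nonneg (hnn r hr) (yy_nonneg _ _)
    have e2 : ∑ r ∈ (P.erase p).powerset, hp (insert p r) * yy L (insert p r) = hh p * B := by
      rw [hB, mul_sum]
      exact sum_congr rfl fun r hr => by rw [hp_insert (notMem_of_erase hr)]; ring
    have e3 : Z = A + hh p * B := by
      rw [hZ, sum_split _ hpP, e2]
    have h3 : mainT (P.erase p) (fun r => yy L r - yy L (insert p r)) ≤ log p * (A - B) := by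
      rw [mainT, hA, hB, ← sum_sub_distrib, mul_sum]
      refine sum_le_sum fun r hr => ?_
      obtain ⟨h4, h5⟩ := yy_diff L (notMem_of_erase hr)
      have h6 := mul_le_mul_of_nonneg_left (mul_le_mul_of_nonneg_right h5 h4) (hnn r hr)
      unfold hp at h6 ⊢
      nlinarith
    have h4 := mul_le_mul_of_nonneg_left h3 hu
    have h5 := mul_le_mul_of_nonneg_left
      (mul_le_mul_of_nonneg_right (hh_le (hP p hpP).2) hB0) (log_natCast_nonneg p)
    rw [e2, e3]
    nlinarith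
  have h3 := sum_le_sum h2
  rw [sum_add_distrib] at h3
  linarith

lemma lam_le (hP : ∀ l ∈ P, l.Prime ∧ 7 ≤ l) (L : ℝ) :
    lam P (yy L) ≤ exp (L - 1) * ∏ l ∈ P, (1 + kk l / l) := by
  rw [prod_one_add, mul_sum, lam]
  refine sum_le_sum fun r hr => ?_
  have hr' := mem_powerset.mp hr
  have h1 : yy L r ≤ exp (L - tt r - 1) := by
    apply max_le _ (exp_pos _).le
    linarith [add_one_le_exp (L - tt r - 1)]
  have e1 : exp (L - tt r - 1) = exp (L - 1) * ∏ l ∈ r, (l : ℝ)⁻¹ := by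
    rw [show L - tt r - 1 = (L - 1) + -tt r by ring, exp_add, tt, ← sum_neg_distrib, exp_sum]
    congr 1
    refine prod_congr rfl fun l hl => ?_
    have : (0 : ℝ) < l := by exact_mod_cast (hP l (hr' hl)).1.pos
    rw [exp_neg, exp_log this]
  have h2 : 0 ≤ ∏ l ∈ r, kk l := prod_nonneg fun l hl => (kk_pos (hP l (hr' hl)).2).le
  rw [abs_of_nonneg (yy_nonneg _ _)]
  calc _ ≤ exp (L - tt r - 1) * ∏ l ∈ r, kk l := by gcongr
    _ = _ := by
      rw [e1, mul_assoc, ← prod_mul_distrib]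
      congr 1
      exact prod_congr rfl fun l _ => by ring

lemma lam_nonneg (hP : ∀ l ∈ P, l.Prime ∧ 7 ≤ l) (w : Finset ℕ → ℝ) : 0 ≤ lam P w :=
  sum_nonneg fun r hr => mul_nonneg (abs_nonneg _)
    (prod_nonneg fun l hl => (kk_pos (hP l (mem_powerset.mp hr hl)).2).le)

lemma lam_erase_le (hP : ∀ l ∈ P, l.Prime ∧ 7 ≤ l) (L : ℝ) (p : ℕ) :
    lam (P.erase p) (fun r => yy L r - yy L (insert p r)) ≤ lam P (yy L) := by
  have hk : ∀ r ∈ P.powerset, 0 ≤ ∏ l ∈ r, kk l := fun r hr =>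
    prod_nonneg fun l hl => (kk_pos (hP l (mem_powerset.mp hr hl)).2).le
  have hsub : (P.erase p).powerset ⊆ P.powerset := powerset_mono.mpr (erase_subset _ _)
  calc _ ≤ ∑ r ∈ (P.erase p).powerset, |yy L r| * ∏ l ∈ r, kk l := by
        refine sum_le_sum fun r hr => mul_le_mul_of_nonneg_right ?_ (hk r (hsub hr))
        rw [abs_of_nonneg (yy_diff L (notMem_of_erase hr)).1, abs_of_nonneg (yy_nonneg _ _)]
        linarith [yy_nonneg L (insert p r)]
    _ ≤ _ := sum_le_sum_of_subset_of_nonneg hsub fun r hr _ =>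
        mul_nonneg (abs_nonneg _) (hk r hr)

lemma mainT_nonneg (hP : ∀ l ∈ P, l.Prime ∧ 7 ≤ l) (w : Finset ℕ → ℝ) : 0 ≤ mainT P w :=
  sum_nonneg fun r hr => mul_nonneg (hp_nonneg hP (mem_powerset.mp hr)) (sq_nonneg _)

lemma geom_le {p : ℕ} (h7 : 7 ≤ p) (A : ℕ) :
    ∑ a ∈ Icc 1 A, 1 / (p : ℝ) ^ a ≤ 1 / ((p : ℝ) - 1) := by
  have h : (7 : ℝ) ≤ p := by exact_mod_cast h7
  have h1 : (0 : ℝ) < p - 1 := by linarith
  have h2 : (0 : ℝ) < p := by linarith
  have key : ∑ a ∈ Icc 1 A, 1 / (p : ℝ) ^ a = 1 / ((p : ℝ) - 1) - 1 / ((p - 1) * p ^ A) := by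
    induction A with
    | zero => simp
    | succ A ih =>
      rw [sum_Icc_succ_top (by omega), ih]
      field_simp
      ring
  have : (0 : ℝ) < 1 / ((p - 1) * p ^ A) := by positivity
  linarith

lemma coprime_30 {l : ℕ} (h : l.Prime ∧ 7 ≤ l) : Nat.Coprime 30 l := by
  rw [Nat.coprime_comm, Nat.Prime.coprime_iff_not_dvd h.1]
  intro h1
  have h2 := Nat.le_of_dvd (by norm_num) h1
  obtain ⟨h3, h4⟩ := h
  interval_cases l <;> simp_all (config := {decide := true})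

lemma sum_powers_le {W : Finset ℕ} (hW : ∀ l ∈ W, l.Prime ∧ 7 ≤ l) (w : Finset ℕ → ℝ)
    (y : ℤ) (N A : ℕ) {p : ℕ} (hp : p.Prime ∧ 7 ≤ p) (hpW : p ∉ W) {E : ℝ} (hE : lam W w ≤ E) :
    ∑ a ∈ Icc 1 A, ∑ s ∈ cls y N 30 11, jj (p ^ a) s * theta W w s ^ 2 ≤
      N / 30 * (4 / ((p : ℝ) - 1) * mainT W w) + 4 * A * E ^ 2 := by
  have h1 : lam W w ^ 2 ≤ E ^ 2 := pow_le_pow_left₀ (lam_nonneg hW w) hE 2
  calc _ ≤ ∑ a ∈ Icc 1 A, (4 * (N / 30) * mainT W w * (1 / (p : ℝ) ^ a) + 4 * E ^ 2) := by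
        refine sum_le_sum fun a ha => ?_
        have h2 := sum_jj_theta_sq hW w y N 30 11 (by norm_num) (fun l hl => coprime_30 (hW l hl))
          hp.1 hp.2 (mem_Icc.mp ha).1 hpW (coprime_30 hp)
        have e : 4 * (N / ((30 : ℕ) : ℝ) / p ^ a * mainT W w + lam W w ^ 2) =
            4 * (N / 30) * mainT W w * (1 / (p : ℝ) ^ a) + 4 * lam W w ^ 2 := by
          push_cast; ring
        linarith
    _ ≤ _ := by
        rw [sum_add_distrib, ← mul_sum, sum_const, Nat.card_Icc, nsmul_eq_mul]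
        have h3 := mul_le_mul_of_nonneg_left (geom_le hp.2 A)
          (show 0 ≤ 4 * ((N : ℝ) / 30) * mainT W w by
            have := mainT_nonneg hW w
            positivity)
        have e : 4 * ((N : ℝ) / 30) * mainT W w * (1 / ((p : ℝ) - 1)) =
            N / 30 * (4 / ((p : ℝ) - 1) * mainT W w) := by ring
        simp only [Nat.add_sub_cancel]
        linarith

/-- The weighted sieve inequality. -/
theorem sieve {PY : Finset ℕ} (hsub : P ⊆ PY) (hPY : ∀ l ∈ PY, l.Prime ∧ 7 ≤ l) (A N : ℕ) (y : ℤ)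
    (b : ℝ) (hall : ∀ s ∈ cls y N 30 11, b ≤ ∑ p ∈ PY, ∑ a ∈ Icc 1 A, jj (p ^ a) s)
    (hb : 1 + ∑ p ∈ PY \ P, 4 / ((p : ℝ) - 1) ≤ b) :
    N / 30 * ∏ l ∈ P, (1 + hh l) ≤
      (exp (∑ p ∈ P, 4 / ((p : ℝ) - 1) * log p) * ∏ l ∈ P, (1 + kk l / l)) ^ 2 *
        (b + 4 * A * PY.card) := by
  have hP : ∀ l ∈ P, l.Prime ∧ 7 ≤ l := fun l hl => hPY l (hsub hl)
  set M := ∑ p ∈ P, 4 / ((p : ℝ) - 1) * log p with hM
  set L := M + 1 with hL
  set E := exp M * ∏ l ∈ P, (1 + kk l / l) with hE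
  have hlam : lam P (yy L) ≤ E := by
    have := lam_le hP L
    rwa [show L - 1 = M by rw [hL]; ring] at this
  set H := mainT P (yy L) with hH
  have hH0 : 0 ≤ H := mainT_nonneg hP _
  have hu : ∀ p ∈ PY, 0 ≤ 4 / ((p : ℝ) - 1) := by
    intro p hp
    have h7 : (7 : ℝ) ≤ p := by exact_mod_cast (hPY p hp).2
    exact div_nonneg (by norm_num) (by linarith)
  have hb0 : 0 ≤ b := by
    have := sum_nonneg fun p (hp : p ∈ PY \ P) => hu p (mem_sdiff.mp hp).1
    linarith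
  have h1 : N / 30 * H - E ^ 2 ≤ ∑ s ∈ cls y N 30 11, theta P (yy L) s ^ 2 := by
    have h := sum_theta_sq hP (yy L) y N 30 11 (by norm_num) (fun l hl => coprime_30 (hP l hl))
    have h' : lam P (yy L) ^ 2 ≤ E ^ 2 := pow_le_pow_left₀ (lam_nonneg hP _) hlam 2
    push_cast at h
    linarith [(abs_le.mp h).1]
  have h2 : b * ∑ s ∈ cls y N 30 11, theta P (yy L) s ^ 2 ≤ ∑ p ∈ PY, ∑ a ∈ Icc 1 A,
      ∑ s ∈ cls y N 30 11, jj (p ^ a) s * theta P (yy L) s ^ 2 := by
    rw [mul_sum]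
    calc _ ≤ ∑ s ∈ cls y N 30 11, (∑ p ∈ PY, ∑ a ∈ Icc 1 A, jj (p ^ a) s) *
          theta P (yy L) s ^ 2 :=
          sum_le_sum fun s hs => mul_le_mul_of_nonneg_right (hall s hs) (sq_nonneg _)
      _ = _ := by
          simp only [sum_mul]
          rw [sum_comm]
          exact sum_congr rfl fun p _ => sum_comm
  have h3 : ∑ p ∈ PY \ P, ∑ a ∈ Icc 1 A, ∑ s ∈ cls y N 30 11, jj (p ^ a) s * theta P (yy L) s ^ 2
      ≤ ∑ p ∈ PY \ P, (N / 30 * (4 / ((p : ℝ) - 1) * H) + 4 * A * E ^ 2) :=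
    sum_le_sum fun p hp => sum_powers_le hP _ y N A (hPY p (mem_sdiff.mp hp).1)
      (mem_sdiff.mp hp).2 hlam
  have h4 : ∑ p ∈ P, ∑ a ∈ Icc 1 A, ∑ s ∈ cls y N 30 11, jj (p ^ a) s * theta P (yy L) s ^ 2
      ≤ ∑ p ∈ P, (N / 30 * (4 / ((p : ℝ) - 1) *
        mainT (P.erase p) (fun r => yy L r - yy L (insert p r))) + 4 * A * E ^ 2) := by
    refine sum_le_sum fun p hp => ?_
    rw [sum_congr rfl fun a ha => sum_congr rfl fun s _ =>
      jj_theta_erase (yy L) (mem_Icc.mp ha).1 hp s]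
    exact sum_powers_le (fun l hl => hP l (mem_of_mem_erase hl)) _ y N A (hP p hp)
      (notMem_erase p P) ((lam_erase_le hP L p).trans hlam)
  rw [← sum_sdiff hsub] at h2
  rw [sum_add_distrib, ← mul_sum, ← sum_mul, sum_const, nsmul_eq_mul] at h3
  rw [sum_add_distrib, ← mul_sum, sum_const, nsmul_eq_mul] at h4
  have h5 := dirichlet hP L
  have h6 := first_moment hP L
  rw [← hM, show L - M = 1 by rw [hL]; ring, one_mul] at h5 h6
  have h7 : ((PY \ P).card : ℝ) + P.card = PY.card := by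
    exact_mod_cast card_sdiff_add_card_eq_card hsub
  have hN : (0 : ℝ) ≤ N / 30 := by positivity
  have h8 := mul_le_mul_of_nonneg_left h1 hb0
  have h9 := mul_le_mul_of_nonneg_left (mul_le_mul_of_nonneg_right hb hH0) hN
  have h10 := mul_le_mul_of_nonneg_left (add_le_add h5 h6) hN
  rw [← h7]
  nlinarith

end Pool.Agent.Lib.MP_c03ca8_nt
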