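import Mathlib

/-!
An explicit upper bound for the sum of `log p / (p - 1)` over primes `7 ≤ p ≤ t`.
-/

open Finset Real

namespace Pool.Agent.Lib.MP_c03ca8_nt

/-- `log m / (m - 1)` on primes `m ≥ 7`. -/
noncomputable def cc (m : ℕ) : ℝ := if m.Prime ∧ 7 ≤ m then log m / ((m : ℝ) - 1) else 0

/-- Partial sums of `cc`. -/
noncomputable def aa (t : ℕ) : ℝ := ∑ m ∈ range (t + 1), cc m

/-- Upper bound for `10 ^ 6 * log m / (m - 1)`. -/
def up (m : ℕ) : ℕ := ((m ^ 16).log2 + 1) * 693148 / (16 * (m - 1)) + 1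

/-- Lower bound for `10 ^ 6 * log t`. -/
def lo (t : ℕ) : ℕ := (t ^ 16).log2 * 693147 / 16

/-- Integer majorant of `10 ^ 6 * cc m`. -/
def cn (m : ℕ) : ℕ := if m.Prime ∧ 7 ≤ m then up m else 0

lemma cc_nonneg (m : ℕ) : 0 ≤ cc m := by
  unfold cc
  split_ifs with h
  · have : (7 : ℝ) ≤ m := by exact_mod_cast h.2
    exact div_nonneg (log_natCast_nonneg m) (by linarith)
  · exact le_rfl

lemma cast_div_ge (a : ℕ) {b : ℕ} (hb : 0 < b) : (a : ℝ) / b ≤ ((a / b : ℕ) : ℝ) + 1 := by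
  have hb0 : (0 : ℝ) < b := by exact_mod_cast hb
  rw [div_le_iff₀ hb0]
  have := Nat.lt_div_mul_add (a := a) hb
  have h5 : (a : ℝ) < ((a / b : ℕ) : ℝ) * b + b := by exact_mod_cast this
  linarith

lemma cc_le_cn (m : ℕ) : cc m ≤ cn m / 10 ^ 6 := by
  unfold cc cn
  split_ifs with h
  · have h7 : (7 : ℝ) ≤ m := by exact_mod_cast h.2
    have h1 : ((m : ℝ)) ^ 16 ≤ 2 ^ ((m ^ 16).log2 + 1) := by
      exact_mod_cast (Nat.lt_log2_self (n := m ^ 16)).le
    have h2 := log_le_log (by positivity) h1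
    rw [log_pow, log_pow] at h2
    have h3 := log_two_lt_d9
    have h4 := cast_div_ge (((m ^ 16).log2 + 1) * 693148) (b := 16 * (m - 1)) (by omega)
    have e : ((16 * (m - 1) : ℕ) : ℝ) = 16 * ((m : ℝ) - 1) := by
      rw [Nat.cast_mul, Nat.cast_sub (by omega)]; norm_num
    rw [e] at h4
    unfold up
    rw [Nat.cast_add, Nat.cast_one, le_div_iff₀ (by norm_num)]
    refine le_trans ?_ h4
    rw [div_mul_eq_mul_div, div_le_div_iff₀ (by linarith) (by linarith)]
    push_cast at h2 ⊢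
    have h5 : (0 : ℝ) ≤ ((m ^ 16).log2 : ℝ) + 1 := by positivity
    have h6 : 16 * log m * 10 ^ 6 ≤ (((m ^ 16).log2 : ℝ) + 1) * 693148 := by nlinarith
    nlinarith
  · simp

lemma lo_le_log {t : ℕ} (ht : 1 ≤ t) : (lo t : ℝ) / 10 ^ 6 ≤ log t := by
  have h1 : (2 : ℝ) ^ (t ^ 16).log2 ≤ (t : ℝ) ^ 16 := by
    exact_mod_cast Nat.log2_self_le (n := t ^ 16) (by positivity)
  have h2 := log_le_log (by positivity) h1
  rw [log_pow, log_pow] at h2
  have h3 := log_two_gt_d9
  have h4 : (lo t : ℝ) ≤ (((t ^ 16).log2 * 693147 : ℕ) : ℝ) / (16 : ℕ) := Nat.cast_div_le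
  push_cast at h2 h4
  have h5 : (0 : ℝ) ≤ ((t ^ 16).log2 : ℝ) := by positivity
  rw [div_le_iff₀ (by norm_num)]
  nlinarith

lemma check1 : ∀ t < 300, 7 ≤ t → ∑ m ∈ range (t + 1), cn m + 1200000 ≤ lo t := by
  decide +kernel

lemma check2 : ∑ m ∈ range 300, (cn m / m + 1) ≤ 146000 := by
  decide +kernel

lemma aa_small {t : ℕ} (h7 : 7 ≤ t) (ht : t < 300) : aa t ≤ log t - 6 / 5 := by
  have h1 : aa t ≤ (∑ m ∈ range (t + 1), cn m : ℕ) / 10 ^ 6 := by
    rw [aa, Nat.cast_sum, sum_div]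
    exact sum_le_sum fun m _ => cc_le_cn m
  have h2 : ((∑ m ∈ range (t + 1), cn m : ℕ) : ℝ) + 1200000 ≤ lo t := by
    exact_mod_cast check1 t ht h7
  have h3 := lo_le_log (t := t) (by omega)
  linarith

lemma sum_div_le (t : ℕ) (ht : 299 ≤ t) :
    ∑ m ∈ range (t + 1), cc m / m ≤ 169 / 1000 - (log t + 101 / 100) / t := by
  induction t, ht using Nat.le_induction with
  | base =>
    have h1 : ∑ m ∈ range 300, cc m / m ≤ (∑ m ∈ range 300, (cn m / m + 1) : ℕ) / 10 ^ 6 := by
      rw [Nat.cast_sum, sum_div]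
      refine sum_le_sum fun m _ => ?_
      rcases Nat.eq_zero_or_pos m with rfl | hm
      · simp
      have h2 := cast_div_ge (cn m) hm
      have h3 := cc_le_cn m
      have hm0 : (0 : ℝ) < m := by exact_mod_cast hm
      calc cc m / m ≤ cn m / 10 ^ 6 / m := by gcongr
        _ = cn m / m / 10 ^ 6 := by ring
        _ ≤ _ := by push_cast; gcongr
    have h2 : ((∑ m ∈ range 300, (cn m / m + 1) : ℕ) : ℝ) ≤ 146000 := by exact_mod_cast check2
    have h3 : log ((299 : ℕ) : ℝ) ≤ 23 / 4 := by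
      have h4 := log_le_sub_one_of_pos (show (0 : ℝ) < 299 / 2 ^ 8 by norm_num)
      rw [log_div (by norm_num) (by norm_num), log_pow] at h4
      have := log_two_lt_d9
      push_cast at h4 ⊢
      linarith
    push_cast at h3 ⊢
    linarith
  | succ t ht ih =>
    rw [sum_range_succ]
    have h0 : (299 : ℝ) ≤ t := by exact_mod_cast ht
    have h1 : cc (t + 1) ≤ log ((t + 1 : ℕ) : ℝ) / t := by
      unfold cc
      split_ifs
      · push_cast; rw [add_sub_cancel_right]
      · exact div_nonneg (log_natCast_nonneg _) (by linarith)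
    have h2 : log ((t + 1 : ℕ) : ℝ) ≤ log t + 1 / t := by
      have h4 := log_le_sub_one_of_pos (show (0 : ℝ) < (t + 1) / t by positivity)
      rw [log_div (by positivity) (by positivity)] at h4
      have e : ((t : ℝ) + 1) / t - 1 = 1 / t := by field_simp; ring
      push_cast
      linarith
    set a := log ((t + 1 : ℕ) : ℝ)
    have h3 : cc (t + 1) / ((t + 1 : ℕ) : ℝ) ≤ a / t / (t + 1) := by
      push_cast; gcongr
    have e : a / t / (t + 1) + (a + 101 / 100) / ((t + 1 : ℕ) : ℝ) =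
        (a + 101 / 100) / t - 101 / 100 / (t * (t + 1)) := by
      push_cast; field_simp; ring
    have h4 : (a + 101 / 100) / t ≤ (log t + 101 / 100) / t + 1 / t / t := by
      rw [← add_div]
      exact div_le_div_of_nonneg_right (by linarith) (by linarith)
    have h5 : 1 / (t : ℝ) / t ≤ 101 / 100 / (t * (t + 1)) := by
      rw [div_div, div_le_div_iff₀ (by positivity) (by positivity)]
      nlinarith
    linarith

lemma log_factorial_le (t : ℕ) (ht : 1 ≤ t) :
    ∑ m ∈ Ioc 0 t, log m ≤ t * log t - t + log t + 1 := by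
  induction t, ht using Nat.le_induction with
  | base => simp
  | succ t ht ih =>
    rw [sum_Ioc_succ_top (by omega)]
    have h0 : (1 : ℝ) ≤ t := by exact_mod_cast ht
    have h4 := log_le_sub_one_of_pos (show (0 : ℝ) < t / (t + 1) by positivity)
    rw [log_div (by positivity) (by positivity)] at h4
    have e : (t : ℝ) / (t + 1) - 1 = -(1 / (t + 1)) := by field_simp; ring
    rw [e] at h4
    have h5 := mul_le_mul_of_nonneg_left h4 (show (0 : ℝ) ≤ t + 1 by positivity)
    have e2 : ((t : ℝ) + 1) * -(1 / (t + 1)) = -1 := by field_simp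
    push_cast
    nlinarith

open ArithmeticFunction (vonMangoldt vonMangoldt_sum vonMangoldt_nonneg vonMangoldt_apply_pow
  vonMangoldt_apply_prime) in
lemma sum_vonMangoldt_le (t : ℕ) (D : Finset ℕ) :
    ∑ d ∈ D, vonMangoldt d * ((t / d : ℕ) : ℝ) ≤ ∑ m ∈ Ioc 0 t, log m := by
  calc ∑ d ∈ D, vonMangoldt d * ((t / d : ℕ) : ℝ)
      = ∑ d ∈ D, ∑ m ∈ Ioc 0 t, if d ∣ m then vonMangoldt d else 0 := by
        refine sum_congr rfl fun d _ => ?_
        rw [← sum_filter, sum_const, Nat.Ioc_filter_dvd_card_eq_div, nsmul_eq_mul, mul_comm]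
    _ = ∑ m ∈ Ioc 0 t, ∑ d ∈ D, if d ∣ m then vonMangoldt d else 0 := sum_comm
    _ ≤ _ := by
        refine sum_le_sum fun m hm => ?_
        rw [← sum_filter, ← vonMangoldt_sum]
        refine sum_le_sum_of_subset_of_nonneg (fun d hd => ?_) fun _ _ _ => vonMangoldt_nonneg
        exact Nat.mem_divisors.mpr ⟨(mem_filter.mp hd).2, (mem_Ioc.mp hm).1.ne'⟩

/-- Primes in `[7, t]`. -/
def pr (t : ℕ) : Finset ℕ := (range (t + 1)).filter fun m => m.Prime ∧ 7 ≤ m

lemma mem_pr {t m : ℕ} : m ∈ pr t ↔ m ≤ t ∧ m.Prime ∧ 7 ≤ m := by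
  simp [pr]

lemma sum_log_pr_le (t : ℕ) : ∑ p ∈ pr t, log p ≤ log 4 * t := by
  refine le_trans ?_ (Chebyshev.theta_le_log4_mul_x (Nat.cast_nonneg t))
  rw [Chebyshev.theta_eq_sum_primesLE_log]
  refine sum_le_sum_of_subset_of_nonneg (fun p hp => ?_) fun p _ _ => log_natCast_nonneg p
  exact Nat.mem_primesLE.mpr ⟨(mem_pr.mp hp).1, (mem_pr.mp hp).2.1⟩

open ArithmeticFunction (vonMangoldt vonMangoldt_sum vonMangoldt_nonneg vonMangoldt_apply_pow
  vonMangoldt_apply_prime) in
lemma sum_log_div_le {t : ℕ} (ht : 300 ≤ t) : ∑ p ∈ pr t, log p / p ≤ log t - 14 / 10 := by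
  have h0 : (300 : ℝ) ≤ t := by exact_mod_cast ht
  set S : Finset ℕ := {2, 4, 8, 16, 32, 64, 128, 3, 9, 27, 81, 5, 25, 125} with hS
  have hdis : Disjoint S (pr t) := by
    rw [disjoint_left]
    intro d hd hd'
    obtain ⟨-, h1, h2⟩ := mem_pr.mp hd'
    clear hd'
    revert d
    decide
  have h1 := (sum_vonMangoldt_le t (S ∪ pr t)).trans (log_factorial_le t (by omega))
  rw [sum_union hdis] at h1
  have h2 : ∑ d ∈ S, vonMangoldt d * ((t : ℝ) / d - 1) ≤
      ∑ d ∈ S, vonMangoldt d * ((t / d : ℕ) : ℝ) := by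
    refine sum_le_sum fun d hd => mul_le_mul_of_nonneg_left ?_ vonMangoldt_nonneg
    have : 0 < d := by revert d; decide
    linarith [cast_div_ge t this]
  have v : ∀ p k : ℕ, p.Prime → k ≠ 0 → vonMangoldt (p ^ k) = log p := fun p k hp hk => by
    rw [vonMangoldt_apply_pow hk, vonMangoldt_apply_prime hp]
  have e2 : ∑ d ∈ S, vonMangoldt d * ((t : ℝ) / d - 1) = log 2 * (127 / 128 * t - 7) +
      log 3 * (40 / 81 * t - 4) + log 5 * (31 / 125 * t - 3) := by
    have a1 := v 2 1 (by norm_num) (by norm_num)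
    have a2 := v 2 2 (by norm_num) (by norm_num)
    have a3 := v 2 3 (by norm_num) (by norm_num)
    have a4 := v 2 4 (by norm_num) (by norm_num)
    have a5 := v 2 5 (by norm_num) (by norm_num)
    have a6 := v 2 6 (by norm_num) (by norm_num)
    have a7 := v 2 7 (by norm_num) (by norm_num)
    have b1 := v 3 1 (by norm_num) (by norm_num)
    have b2 := v 3 2 (by norm_num) (by norm_num)
    have b3 := v 3 3 (by norm_num) (by norm_num)
    have b4 := v 3 4 (by norm_num) (by norm_num)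
    have c1 := v 5 1 (by norm_num) (by norm_num)
    have c2 := v 5 2 (by norm_num) (by norm_num)
    have c3 := v 5 3 (by norm_num) (by norm_num)
    norm_num at a1 a2 a3 a4 a5 a6 a7 b1 b2 b3 b4 c1 c2 c3
    rw [hS]
    repeat rw [sum_insert (by decide)]
    rw [sum_singleton, a1, a2, a3, a4, a5, a6, a7, b1, b2, b3, b4, c1, c2, c3]
    push_cast
    ring
  have h3 : t * ∑ p ∈ pr t, log p / p ≤ ∑ p ∈ pr t, vonMangoldt p * ((t / p : ℕ) : ℝ) +
      1 / 2 * ∑ p ∈ pr t, log p + 1 / 2 * ∑ p ∈ pr t, if p ∈ pr (2 * t / 3) then log p else 0 := by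
    rw [mul_sum, mul_sum, mul_sum, ← sum_add_distrib, ← sum_add_distrib]
    refine sum_le_sum fun p hp => ?_
    obtain ⟨g1, g2, g3⟩ := mem_pr.mp hp
    have hp0 : (0 : ℝ) < p := by exact_mod_cast g2.pos
    have h6 := log_natCast_nonneg p
    rw [vonMangoldt_apply_prime g2]
    split_ifs with h
    · have h4 := mul_le_mul_of_nonneg_left (cast_div_ge t g2.pos) h6
      have e : (t : ℝ) * (log p / p) = log p * (t / p) := by ring
      linarith
    · have h7 : 2 * t < 3 * p := by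
        have : ¬ p ≤ 2 * t / 3 := fun hc => h (mem_pr.mpr ⟨hc, g2, g3⟩)
        omega
      have h8 : (2 : ℝ) * t < 3 * p := by exact_mod_cast h7
      have h9 : (1 : ℝ) ≤ ((t / p : ℕ) : ℝ) := by
        exact_mod_cast (Nat.le_div_iff_mul_le g2.pos).mpr (by omega)
      have h10 : (t : ℝ) / p ≤ 3 / 2 := by
        rw [div_le_iff₀ hp0]; linarith
      have e : (t : ℝ) * (log p / p) = log p * (t / p) := by ring
      nlinarith
  have h4 : ∑ p ∈ pr t, (if p ∈ pr (2 * t / 3) then log p else 0) ≤ log 4 * (2 * t / 3) := by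
    rw [sum_ite_mem]
    calc _ ≤ ∑ p ∈ pr (2 * t / 3), log p :=
          sum_le_sum_of_subset_of_nonneg inter_subset_right fun p _ _ => log_natCast_nonneg p
      _ ≤ log 4 * ((2 * t / 3 : ℕ) : ℝ) := sum_log_pr_le _
      _ ≤ _ := by
          have : ((2 * t / 3 : ℕ) : ℝ) ≤ ((2 * t : ℕ) : ℝ) / (3 : ℕ) := Nat.cast_div_le
          push_cast at this
          gcongr
  have h5 := sum_log_pr_le t
  have l2 := log_two_gt_d9
  have l2' := log_two_lt_d9
  have l4 : log 4 = 2 * log 2 := by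
    rw [show (4 : ℝ) = 2 ^ 2 by norm_num, log_pow]; norm_num
  have l3 : 10986 / 10000 ≤ log 3 := by
    have := log_three_gt_d9
    linarith
  have l5 : 16094 / 10000 ≤ log 5 := by
    have := log_five_gt_d9
    linarith
  have lt : log t ≤ 47 / 10 + t / 256 := by
    have h4 := log_le_sub_one_of_pos (show (0 : ℝ) < t / 2 ^ 8 by positivity)
    rw [log_div (by positivity) (by norm_num), log_pow] at h4
    push_cast at h4
    linarith
  have g2 := mul_le_mul_of_nonneg_right l2.le (show (0 : ℝ) ≤ 127 / 128 * t - 7 by linarith)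
  have g3 := mul_le_mul_of_nonneg_right l3 (show (0 : ℝ) ≤ 40 / 81 * t - 4 by linarith)
  have g5 := mul_le_mul_of_nonneg_right l5 (show (0 : ℝ) ≤ 31 / 125 * t - 3 by linarith)
  have g4 := mul_le_mul_of_nonneg_right l2'.le (show (0 : ℝ) ≤ t by linarith)
  rw [l4] at h4 h5
  have : t * ∑ p ∈ pr t, log p / p ≤ t * (log t - 14 / 10) := by linarith
  exact le_of_mul_le_mul_left this (by linarith)

theorem aa_le {t : ℕ} (h7 : 7 ≤ t) : aa t ≤ log t - 6 / 5 := by
  rcases lt_or_ge t 300 with h | h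
  · exact aa_small h7 h
  have h1 := sum_log_div_le h
  have h2 := sum_div_le t (by omega)
  have h3 : 0 ≤ (log t + 101 / 100) / t := by
    have := log_natCast_nonneg t
    positivity
  have e : aa t = ∑ p ∈ pr t, log p / p + ∑ m ∈ range (t + 1), cc m / m := by
    rw [aa, pr, sum_filter, ← sum_add_distrib]
    refine sum_congr rfl fun m _ => ?_
    unfold cc
    split_ifs with hm
    · have : (7 : ℝ) ≤ m := by exact_mod_cast hm.2
      have h4 : (m : ℝ) - 1 ≠ 0 := by linarith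
      field_simp
      ring
    · simp
  linarith

end Pool.Agent.Lib.MP_c03ca8_nt
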