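import Pool.Agent.Lib.MP_c03ca8_nt.Dirichlet
import Pool.Agent.Lib.MP_c03ca8_nt.Mertens

/-!
Counting prime factors, and partial summation.
-/

open Finset Real

namespace Pool.Agent.Lib.MP_c03ca8_nt

open ArithmeticFunction (cardFactors cardFactors_mul cardFactors_eq_sum_factorization)

lemma big_le {x : ℕ} (hx : x ≠ 0) (B : ℕ) :
    (B + 1) ^ (∑ p ∈ x.primeFactors.filter (B < ·), x.factorization p) ≤ x := by
  calc _ = ∏ p ∈ x.primeFactors.filter (B < ·), (B + 1) ^ x.factorization p :=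
        (prod_pow_eq_pow_sum _ _ _).symm
    _ ≤ ∏ p ∈ x.primeFactors.filter (B < ·), p ^ x.factorization p :=
        prod_le_prod' fun p hp => Nat.pow_le_pow_left (mem_filter.mp hp).2 _
    _ ≤ x := by
        refine Nat.le_of_dvd (Nat.pos_of_ne_zero hx) ?_
        conv_rhs => rw [← Nat.prod_factorization_pow_eq_self hx]
        exact prod_dvd_prod_of_subset _ _ _ (filter_subset _ _)

lemma omega_split {x : ℕ} (hx : x ≠ 0) {B k : ℕ} (h : x < (B + 1) ^ (k + 1)) :
    cardFactors x ≤ k + ∑ p ∈ x.primeFactors.filter (fun p => ¬ B < p), x.factorization p := by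
  have h1 := (big_le hx B).trans_lt h
  have h2 : ∑ p ∈ x.primeFactors.filter (B < ·), x.factorization p ≤ k := by
    by_contra hc
    exact absurd (Nat.pow_le_pow_right (Nat.succ_pos B) (Nat.succ_le_of_lt (not_le.mp hc)))
      (not_le.mpr h1)
  rw [cardFactors_eq_sum_factorization, Finsupp.sum, Nat.support_factorization,
    ← sum_filter_add_sum_filter_not x.primeFactors (B < ·)]
  omega

lemma omega_le_of_coprime {x B k : ℕ} (hx : x ≠ 0) (h : x < (B + 1) ^ (k + 1))
    (hc : Nat.Coprime x B.factorial) : cardFactors x ≤ k := by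
  have h1 := omega_split hx h
  rw [filter_false_of_mem, sum_empty] at h1
  · exact h1
  · intro p hp hle
    have hpp := Nat.prime_of_mem_primeFactors hp
    have h2 := Nat.dvd_gcd (Nat.dvd_of_mem_primeFactors hp)
      ((hpp.dvd_factorial).mpr (not_lt.mp hle))
    rw [hc] at h2
    exact hpp.not_dvd_one h2

lemma omega_le_pr {x Y : ℕ} (hx : x ≠ 0) (h : x < (Y + 1) ^ 2) (hc : Nat.Coprime x 30) :
    cardFactors x ≤ 1 + ∑ p ∈ pr Y, x.factorization p := by
  refine (omega_split hx h).trans (Nat.add_le_add_left (sum_le_sum_of_subset fun p hp => ?_) 1)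
  obtain ⟨h1, h2⟩ := mem_filter.mp hp
  have hpp := Nat.prime_of_mem_primeFactors h1
  refine mem_pr.mpr ⟨not_lt.mp h2, hpp, ?_⟩
  by_contra h7
  have h3 : p ∣ 30 := by
    have := hpp.two_le
    push Not at h7
    interval_cases p <;> simp_all (config := {decide := true})
  have h4 := Nat.dvd_gcd (Nat.dvd_of_mem_primeFactors h1) h3
  rw [hc] at h4
  exact hpp.not_dvd_one h4

lemma weight_ge {m Y N k : ℕ} (hm : m % 30 = 11) (hN : m + 8 < N) (hY : N ≤ (Y + 1) ^ 2)
    (hk : k + 4 ≤ cardFactors (m * (m + 2) * (m + 6) * (m + 8))) :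
    (k : ℝ) ≤ ∑ p ∈ pr Y, ∑ a ∈ Icc 1 (Nat.log 7 N), jj (p ^ a) m := by
  have h0 : m ≠ 0 := by omega
  have hco : ∀ j : ℕ, Nat.Coprime (11 + j) 30 → Nat.Coprime (m + j) 30 := by
    intro j hj
    have e : m + j = (11 + j) + 30 * (m / 30) := by omega
    rw [e, Nat.coprime_add_mul_left_left]
    exact hj
  have g0 := omega_le_pr (Y := Y) h0 (by omega) (hco 0 (by norm_num))
  have g2 := omega_le_pr (x := m + 2) (Y := Y) (by omega) (by omega) (hco 2 (by norm_num))
  have g6 := omega_le_pr (x := m + 6) (Y := Y) (by omega) (by omega) (hco 6 (by norm_num))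
  have g8 := omega_le_pr (x := m + 8) (Y := Y) (by omega) (by omega) (hco 8 (by norm_num))
  set Z := m * (m + 2) * (m + 6) * (m + 8) with hZ
  have hZ0 : Z ≠ 0 := by positivity
  have e1 : cardFactors Z = cardFactors m + cardFactors (m + 2) + cardFactors (m + 6) +
      cardFactors (m + 8) := by
    rw [hZ, cardFactors_mul (by positivity) (by omega), cardFactors_mul (by positivity) (by omega),
      cardFactors_mul h0 (by omega)]
  have e2 : ∑ p ∈ pr Y, Z.factorization p = ∑ p ∈ pr Y, m.factorization p +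
      ∑ p ∈ pr Y, (m + 2).factorization p + ∑ p ∈ pr Y, (m + 6).factorization p +
      ∑ p ∈ pr Y, (m + 8).factorization p := by
    rw [hZ, Nat.factorization_mul (by positivity) (by omega),
      Nat.factorization_mul (by positivity) (by omega), Nat.factorization_mul h0 (by omega)]
    simp only [Finsupp.add_apply, sum_add_distrib]
  have h1 : k ≤ ∑ p ∈ pr Y, Z.factorization p := by omega
  have h2 : (k : ℝ) ≤ ∑ p ∈ pr Y, (Z.factorization p : ℝ) := by exact_mod_cast h1
  refine h2.trans (sum_le_sum fun p hp => ?_)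
  obtain ⟨-, hpp, h7⟩ := mem_pr.mp hp
  have eZ : pi4 m = (Z : ℤ) := by rw [hZ, pi4]; push_cast; ring
  have h3 : Z.factorization p ≤ Nat.log 7 N := by
    have h4 : (p : ℤ) ^ Z.factorization p ∣ pi4 m := by
      rw [eZ]; exact_mod_cast Nat.ordProj_dvd Z p
    have h5 : p ^ Z.factorization p ≤ N := by
      have h6 : ∀ j : ℕ, j ≤ 8 → (p : ℤ) ^ Z.factorization p ∣ (m : ℤ) + j →
          p ^ Z.factorization p ≤ N := by
        intro j hj hd
        have h8 : p ^ Z.factorization p ∣ m + j := by exact_mod_cast hd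
        have := Nat.le_of_dvd (by omega) h8
        omega
      rcases dvd_pi4 hpp h7 h4 with h | h | h | h
      · exact h6 0 (by norm_num) (by simpa using h)
      · exact h6 2 (by norm_num) h
      · exact h6 6 (by norm_num) h
      · exact h6 8 (by norm_num) h
    exact Nat.le_log_of_pow_le (by norm_num) ((Nat.pow_le_pow_left h7 _).trans h5)
  calc (Z.factorization p : ℝ) = ∑ a ∈ Icc 1 (Z.factorization p), jj (p ^ a) m := by
        rw [sum_congr rfl (g := fun _ => 1)]
        · simp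
        · intro a ha
          unfold jj
          rw [if_pos]
          rw [eZ]
          exact_mod_cast (pow_dvd_pow p (mem_Icc.mp ha).2).trans (Nat.ordProj_dvd Z p)
    _ ≤ _ := sum_le_sum_of_subset_of_nonneg (Icc_subset_Icc_right h3) fun a _ _ => jj_nonneg _ _

lemma abel_aux (c lm : ℕ → ℝ) (ζ δ : ℝ) (hζ : 0 < ζ) (hδ : 0 ≤ δ) (h0 : ζ ≤ lm 0)
    (hm : Monotone lm) (T : ℕ) (hS : ∀ t ≤ T, ∑ m ∈ range (t + 1), c m ≤ lm t - ζ + δ) :
    ∑ m ∈ range (T + 1), c m / lm m ≤
      log (lm T / ζ) + δ / ζ - (lm T - ζ + δ - ∑ m ∈ range (T + 1), c m) / lm T := by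
  have hpos : ∀ t, 0 < lm t := fun t => hζ.trans_le (h0.trans (hm (Nat.zero_le t)))
  have hlog : ∀ a b : ℝ, 0 < a → 0 < b → (a - b) / a ≤ log a - log b := by
    intro a b ha hb
    have := log_le_sub_one_of_pos (div_pos hb ha)
    rw [log_div hb.ne' ha.ne'] at this
    have e : (a - b) / a = 1 - b / a := by field_simp
    linarith
  induction T with
  | zero =>
    simp only [zero_add, range_one, sum_singleton]
    have h1 := hlog _ _ (hpos 0) hζ
    have h2 : δ / lm 0 ≤ δ / ζ := by gcongr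
    rw [log_div (hpos 0).ne' hζ.ne']
    have e : (lm 0 - ζ + δ - c 0) / lm 0 = (lm 0 - ζ) / lm 0 + δ / lm 0 - c 0 / lm 0 := by ring
    linarith
  | succ T ih =>
    have ih' := ih fun t ht => hS t (by omega)
    have h1 := hlog _ _ (hpos (T + 1)) (hpos T)
    have h2 := hS T (by omega)
    rw [log_div (hpos _).ne' hζ.ne'] at ih' ⊢
    rw [sum_range_succ _ (T + 1), sum_range_succ _ (T + 1)]
    set D := lm T - ζ + δ - ∑ m ∈ range (T + 1), c m with hD
    have h3 : D / lm (T + 1) ≤ D / lm T :=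
      div_le_div_of_nonneg_left (by linarith) (hpos T) (hm (Nat.le_succ T))
    have e : (lm (T + 1) - ζ + δ - (∑ m ∈ range (T + 1), c m + c (T + 1))) / lm (T + 1) =
        D / lm (T + 1) + (lm (T + 1) - lm T) / lm (T + 1) - c (T + 1) / lm (T + 1) := by
      rw [hD]; ring
    linarith

lemma abel_inv (c lm : ℕ → ℝ) (ζ δ : ℝ) (hζ : 0 < ζ) (hδ : 0 ≤ δ) (h0 : ζ ≤ lm 0)
    (hm : Monotone lm) (T : ℕ) (hS : ∀ t ≤ T, ∑ m ∈ range (t + 1), c m ≤ lm t - ζ + δ) :
    ∑ m ∈ range (T + 1), c m / lm m ≤ log (lm T / ζ) + δ / ζ := by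
  have h1 := abel_aux c lm ζ δ hζ hδ h0 hm T hS
  have h2 : 0 ≤ (lm T - ζ + δ - ∑ m ∈ range (T + 1), c m) / lm T :=
    div_nonneg (by linarith [hS T le_rfl]) (hζ.trans_le (h0.trans (hm (Nat.zero_le T)))).le
  linarith

end Pool.Agent.Lib.MP_c03ca8_nt
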