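import Pool.Agent.Lib.MP_c03ca8_nt.Bounds

/-!
The case `n ≥ 300`.
-/

open Finset Real

namespace Pool.Agent.Lib.MP_c03ca8_nt

open ArithmeticFunction (cardFactors)

lemma count_le {n : ℕ} (hn : 300 ≤ n) {t : ℝ} (ht : exp t = n + 1) (ht0 : 57 / 10 ≤ t) :
    12 + 4 * (Nat.log 7 ((n + 1) ^ 5) : ℝ) * (pr ⌊exp (5 / 2 * t)⌋₊).card ≤
      12 * exp (5 / 2 * t) := by
  have hn' : (300 : ℝ) ≤ n := by exact_mod_cast hn
  have l7 := log7_ge
  have hA : (Nat.log 7 ((n + 1) ^ 5) : ℝ) ≤ 2582 / 1000 * t := by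
    have h1 : (7 : ℝ) ^ Nat.log 7 ((n + 1) ^ 5) ≤ exp t ^ 5 := by
      rw [ht]
      exact_mod_cast Nat.pow_log_le_self 7 (x := (n + 1) ^ 5) (by positivity)
    have h2 := log_le_log (by positivity) h1
    rw [log_pow, log_pow, log_exp] at h2
    push_cast at h2
    have h3 : (0 : ℝ) ≤ Nat.log 7 ((n + 1) ^ 5) := Nat.cast_nonneg _
    nlinarith
  set E := exp (5 / 4 * t) with hE
  have eE : exp (5 / 2 * t) = E ^ 2 := by
    rw [hE, ← exp_nat_mul]; congr 1; push_cast; ring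
  have hE0 : 0 < E := exp_pos _
  have hE1 : 301 + 75 * t ≤ E := by
    have e : E = exp t * exp (t / 4) := by rw [hE, ← exp_add]; congr 1; ring
    have := add_one_le_exp (t / 4)
    rw [e, ht]
    nlinarith
  have hpi := Chebyshev.pi_le_log4_mul_div (x := exp (5 / 2 * t)) (by rw [eE]; nlinarith)
  have hcard : ((pr ⌊exp (5 / 2 * t)⌋₊).card : ℝ) ≤ Nat.primeCounting ⌊exp (5 / 2 * t)⌋₊ := by
    rw [← Nat.primesLE_card_eq_primeCounting]
    exact_mod_cast card_le_card fun p hp =>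
      Nat.mem_primesLE.mpr ⟨(mem_pr.mp hp).1, (mem_pr.mp hp).2.1⟩
  have hC := hcard.trans hpi
  rw [eE] at hC ⊢
  rw [sqrt_sq hE0.le, hE, log_exp, ← hE] at hC
  have l4 : log 4 ≤ 13863 / 10000 := by
    rw [show (4 : ℝ) = 2 ^ 2 by norm_num, log_pow]
    have := log_two_lt_d9
    push_cast
    linarith
  have h5 : t * (log 4 * E ^ 2 / (5 / 4 * t)) = 4 / 5 * log 4 * E ^ 2 := by
    field_simp
  have h6 : (Nat.log 7 ((n + 1) ^ 5) : ℝ) * (pr ⌊E ^ 2⌋₊).card ≤
      2582 / 1000 * t * (log 4 * E ^ 2 / (5 / 4 * t) + E) :=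
    mul_le_mul hA hC (Nat.cast_nonneg _) (by linarith)
  have h7 := mul_le_mul_of_nonneg_right l4 (sq_nonneg E)
  have h8 := mul_le_mul_of_nonneg_right hE1 hE0.le
  nlinarith

theorem large {n : ℕ} (hn : 300 ≤ n) : ∃ m : ℕ, n ^ 5 < m ∧ m + 8 < (n + 1) ^ 5 ∧
    cardFactors (m * (m + 2) * (m + 6) * (m + 8)) ≤ 15 := by
  by_contra hcon
  push Not at hcon
  have hn' : (300 : ℝ) ≤ n := by exact_mod_cast hn
  set t := log ((n : ℝ) + 1) with htdef
  have ht : exp t = n + 1 := exp_log (by linarith)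
  have ht0 : 57 / 10 ≤ t := by
    have h7 : log (2 ^ 2 * 3 * 5 ^ 2) ≤ t := log_le_log (by norm_num) (by linarith)
    rw [log_mul (by norm_num) (by norm_num), log_mul (by norm_num) (by norm_num), log_pow,
      log_pow] at h7
    have := log_two_gt_d9
    have := log_three_gt_d9
    have := log_five_gt_d9
    push_cast at h7
    linarith
  set Y := ⌊exp (5 / 2 * t)⌋₊ with hY
  have hNY : (n + 1) ^ 5 ≤ (Y + 1) ^ 2 := by
    have h1 : exp (5 / 2 * t) ≤ Y + 1 := (Nat.lt_floor_add_one _).le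
    have h2 : exp (5 / 2 * t) ^ 2 = exp t ^ 5 := by
      rw [← exp_nat_mul, ← exp_nat_mul]; congr 1; push_cast; ring
    have h3 := pow_le_pow_left₀ (exp_pos _).le h1 2
    rw [h2, ht] at h3
    exact_mod_cast h3
  have hlogY : log Y ≤ 5 / 2 * t := by
    rcases Nat.eq_zero_or_pos Y with h | h
    · rw [h]; simp; linarith
    · rw [log_le_iff_le_exp (by exact_mod_cast h)]
      exact Nat.floor_le (exp_pos _).le
  set ζ := 4 / 25 * t with hζ
  have hex : ∃ u, ζ - 6 / 5 ≤ aa u ∨ u = Y := ⟨Y, Or.inr rfl⟩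
  classical
  set u := Nat.find hex with hu
  have huY : u ≤ Y := Nat.find_min' hex (Or.inr rfl)
  have hau : aa u ≤ ζ - 6 / 5 + 326 / 1000 := by
    rcases Nat.eq_zero_or_pos u with h | h
    · rw [h, aa_of_lt (by norm_num)]; linarith
    · have h1 := Nat.find_min hex (show u - 1 < u by omega)
      push Not at h1
      have e : aa u = aa (u - 1) + cc u := by
        rw [aa, aa, show u - 1 + 1 = u by omega, sum_range_succ]
      linarith [h1.1, cc_le u]
  have htail : ∑ p ∈ pr Y \ pr u, 1 / ((p : ℝ) - 1) ≤ 11 / 4 := by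
    rcases Nat.find_spec hex with h | h
    · refine (tail_sum (by linarith) h).trans ?_
      have h1 : max (log Y) ζ / ζ ≤ 125 / 8 := by
        rw [div_le_iff₀ (by linarith)]
        apply max_le <;> linarith
      have h2 : 0 < max (log Y) ζ / ζ :=
        div_pos (lt_of_lt_of_le (by linarith) (le_max_right _ _)) (by linarith)
      refine (log_le_log h2 h1).trans ?_
      rw [log_div (by norm_num) (by norm_num), show (125 : ℝ) = 5 ^ 3 by norm_num,
        show (8 : ℝ) = 2 ^ 3 by norm_num, log_pow, log_pow]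
      have := log_two_gt_d9
      have := log_five_lt_d9
      push_cast
      linarith
    · rw [← hu] at h
      rw [h, sdiff_self]
      simp only [bot_eq_empty, sum_empty]
      norm_num
  have hle : n ^ 5 + 9 + 5 * n ^ 4 ≤ (n + 1) ^ 5 := by
    have : (n + 1) ^ 5 = n ^ 5 + 5 * n ^ 4 + (10 * n ^ 3 + 10 * n ^ 2 + 5 * n + 1) := by ring
    omega
  have hs := sieve (P := pr u) (PY := pr Y)
    (fun p hp => mem_pr.mpr ⟨(mem_pr.mp hp).1.trans huY, (mem_pr.mp hp).2⟩) pr_prime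
    (Nat.log 7 ((n + 1) ^ 5)) (5 * n ^ 4) (n ^ 5 : ℕ) 12 (by
      intro s hs
      obtain ⟨h1, h2⟩ := mem_filter.mp hs
      obtain ⟨h3, h4⟩ := mem_Ioc.mp h1
      lift s to ℕ using (by positivity : (0 : ℤ) ≤ (n ^ 5 : ℕ)).trans h3.le
      have h5 : n ^ 5 < s := by exact_mod_cast h3
      have h6 : s ≤ n ^ 5 + 5 * n ^ 4 := by exact_mod_cast h4
      have h7 : s % 30 = 11 := by
        unfold Int.ModEq at h2
        omega
      exact_mod_cast weight_ge (k := 12) h7 (show s + 8 < (n + 1) ^ 5 by omega) hNY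
        (hcon s h5 (by omega))) (by
      have e : ∑ p ∈ pr Y \ pr u, 4 / ((p : ℝ) - 1) = 4 * ∑ p ∈ pr Y \ pr u, 1 / ((p : ℝ) - 1) := by
        rw [mul_sum]; exact sum_congr rfl fun _ _ => by ring
      linarith)
  have l7 := log7_ge
  have l7' := log7_le
  have hhead := head_sum (u := u) (ζ := max (ζ + 326 / 1000) (log 7)) (le_max_right _ _)
    (by linarith [le_max_left (ζ + 326 / 1000) (log 7)])
  have g1 : (log 7 - 6 / 5) / log 7 ≤ 3862 / 10000 := by
    rw [div_le_iff₀ (by linarith)]; linarith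
  have g2 : 4 * log (max (ζ + 326 / 1000) (log 7) / log 7) ≤ 22 / 100 * t - 6 / 5 := by
    rcases le_total (ζ + 326 / 1000) (log 7) with h | h
    · rw [max_eq_right h, div_self (by linarith), log_one]; linarith
    · rw [max_eq_left h]
      have a1 := log_le_sub_one_of_pos (show 0 < (ζ + 326 / 1000) / 3 by linarith)
      have a2 := log_le_sub_one_of_pos (show 0 < 3 / log 7 by positivity)
      have a3 : 3 / log 7 ≤ 155 / 100 := by
        rw [div_le_iff₀ (by linarith)]; linarith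
      rw [log_div (by linarith) (by norm_num)] at a1
      rw [log_div (by norm_num) (by linarith)] at a2
      rw [log_div (by linarith) (by linarith)]
      linarith
  set H := ∏ l ∈ pr u, (1 + hh l) with hH
  have hH0 : 0 < H := prod_pos fun l hl => by linarith [hh_pos (pr_prime l hl).2]
  have g3 : (∏ l ∈ pr u, (1 + kk l / l)) ^ 2 ≤ H * exp (22 / 100 * t + 2125 / 1000) :=
    (prod_bound u).trans (mul_le_mul_of_nonneg_left (exp_le_exp.mpr (by linarith)) hH0.le)
  have g4 : exp (4 * aa u) ^ 2 ≤ exp (128 / 100 * t - 6992 / 1000) := by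
    rw [← exp_nat_mul]
    exact exp_le_exp.mpr (by push_cast; linarith)
  have g5 := count_le hn ht ht0
  rw [sum_pr_log, mul_pow] at hs
  have g6 : ((5 * n ^ 4 : ℕ) : ℝ) / 30 * H ≤ exp (128 / 100 * t - 6992 / 1000) *
      (H * exp (22 / 100 * t + 2125 / 1000)) * (12 * exp (5 / 2 * t)) := by
    refine hs.trans ?_
    gcongr
  have e1 : exp (128 / 100 * t - 6992 / 1000) * (H * exp (22 / 100 * t + 2125 / 1000)) *
      (12 * exp (5 / 2 * t)) = 12 * exp t ^ 4 / exp (4867 / 4000) ^ 4 * H := by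
    have e2 : exp t ^ 4 / exp (4867 / 4000) ^ 4 = exp (128 / 100 * t - 6992 / 1000) *
        exp (22 / 100 * t + 2125 / 1000) * exp (5 / 2 * t) := by
      rw [← exp_nat_mul, ← exp_nat_mul, ← exp_sub, ← exp_add, ← exp_add]
      congr 1
      push_cast
      ring
    rw [mul_div_assoc, e2]
    ring
  rw [e1, ht] at g6
  have g7 := le_of_mul_le_mul_right g6 hH0
  have g8 : (76 : ℝ) ≤ exp (4867 / 4000) ^ 4 := by
    have := quadratic_le_exp_of_nonneg (show (0 : ℝ) ≤ 4867 / 4000 by norm_num)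
    calc (76 : ℝ) ≤ (1 + 4867 / 4000 + (4867 / 4000) ^ 2 / 2) ^ 4 := by norm_num
      _ ≤ _ := by gcongr
  have g9 : ((n : ℝ) + 1) ^ 4 ≤ (301 / 300 * n) ^ 4 := by gcongr; linarith
  have g10 : 12 * ((n : ℝ) + 1) ^ 4 / exp (4867 / 4000) ^ 4 ≤ 12 * (301 / 300 * n) ^ 4 / 76 := by
    gcongr
  have g11 : (0 : ℝ) < (n : ℝ) ^ 4 := by positivity
  push_cast at g7
  nlinarith

end Pool.Agent.Lib.MP_c03ca8_nt
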