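import Pool.Agent.Lib.MP_c03ca8_nt.Large

/-!
The cases `n < 300`, and the full statement.
-/

namespace Pool.Agent.Lib.MP_c03ca8_nt

open ArithmeticFunction (cardFactors cardFactors_mul)

/-- Offsets of the witnesses above `n ^ 5`. -/
def wit : List ℕ :=
  [0, 0, 0, 0, 0, 126, 1655, 1234, 2073, 3932, 1111, 4650, 9029, 3958, 1677, 8816, 15385, 20724,
   953, 2422, 201, 8600, 1129, 1848, 2447, 1276, 8625, 1634, 5833, 4482, 26171, 8020, 849, 398,
   5617, 2676, 14045, 29434, 15693, 2612, 6301, 8550, 10679, 3298, 4107, 8306, 6295, 924, 53,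
   10252, 7911, 2240, 1609, 8988, 5117, 8146, 2865, 464, 7243, 3702, 3971, 1240, 759, 1598,
   16507, 1056, 215, 3754, 4563, 5582, 14611, 5490, 20669, 1798, 7527, 2456, 775, 5694, 773,
   1762, 25311, 7910, 3919, 9588, 2867, 976, 12285, 2384, 12553, 2772, 13241, 28660, 30669, 3428,
   4057, 5826, 1415, 9784, 5463, 6212, 8911, 1560, 6209, 1378, 537, 416, 1375, 8874, 1733, 11062,
   111, 1670, 949, 4728, 20447, 6046, 525, 854, 12043, 13212, 8891, 13180, 8649, 11858, 4087,
   4296, 3875, 184, 2373, 1952, 9031, 2400, 719, 718, 3027, 4046, 13075, 10164, 4493, 7852, 1971,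
   22430, 2659, 9468, 19817, 21706, 20535, 10994, 17083, 2022, 11051, 700, 5649, 12218, 5617,
   8886, 6545, 544, 28743, 7442, 7711, 1290, 2249, 1468, 2637, 13526, 1435, 1494, 14213, 9892,
   1491, 11150, 10369, 5118, 6647, 10516, 2325, 104, 643, 2592, 7841, 7150, 9489, 25208, 7537,
   24786, 4565, 9814, 1593, 9572, 2011, 3030, 3989, 6118, 687, 1466, 865, 4194, 7103, 11722,
   2241, 1730, 15229, 13008, 10697, 6586, 7095, 4004, 12613, 642, 1271, 19510, 6909, 21368, 847,
   36, 3995, 1144, 2493, 392, 4561, 16410, 6209, 19198, 12987, 5426, 55, 4554, 22883, 3142,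
   13011, 5750, 4909, 12768, 2987, 25636, 1875, 11324, 11293, 4782, 2471, 3280, 6519, 12998,
   1417, 4266, 275, 5404, 2973, 4502, 10711, 810, 2159, 1198, 8097, 12956, 295, 12144, 2693, 382,
   9171, 16190, 529, 6048, 167, 556, 9375, 9164, 19033, 12, 2051, 790, 25659, 5078, 11467, 2856,
   11135, 18124, 2583, 8222, 8011, 13170, 629, 8098, 2277, 1196, 6025, 1164, 5393, 5122, 1371,
   11060, 1609, 2658, 767, 20806, 3765, 2714, 29773, 42]

lemma wit_check : ∀ n < 300, 5 ≤ n → 0 < wit.getD n 0 ∧ n ^ 5 + wit.getD n 0 + 8 < (n + 1) ^ 5 ∧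
    Nat.gcd ((n ^ 5 + wit.getD n 0) * (n ^ 5 + wit.getD n 0 + 2) * (n ^ 5 + wit.getD n 0 + 6) *
      (n ^ 5 + wit.getD n 0 + 8)) (Nat.factorial 1250) = 1 := by
  decide +kernel

lemma of_coprime {m B : ℕ} (hm : m ≠ 0) (h : m + 8 < (B + 1) ^ (3 + 1))
    (hc : Nat.Coprime (m * (m + 2) * (m + 6) * (m + 8)) B.factorial) :
    cardFactors (m * (m + 2) * (m + 6) * (m + 8)) ≤ 12 := by
  simp only [Nat.coprime_mul_iff_left] at hc
  obtain ⟨⟨⟨h0, h2⟩, h6⟩, h8⟩ := hc
  have g0 := omega_le_of_coprime (k := 3) hm (by omega) h0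
  have g2 := omega_le_of_coprime (k := 3) (by omega) (by omega) h2
  have g6 := omega_le_of_coprime (k := 3) (by omega) (by omega) h6
  have g8 := omega_le_of_coprime (k := 3) (by omega) h h8
  rw [cardFactors_mul (by positivity) (by omega), cardFactors_mul (by positivity) (by omega),
    cardFactors_mul hm (by omega)]
  omega

theorem small {n : ℕ} (h1 : 1 ≤ n) (hn : n < 300) : ∃ m : ℕ, n ^ 5 < m ∧ m + 8 < (n + 1) ^ 5 ∧
    cardFactors (m * (m + 2) * (m + 6) * (m + 8)) ≤ 12 := by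
  rcases le_or_gt 5 n with h5 | h5
  · obtain ⟨g1, g2, g3⟩ := wit_check n hn h5
    refine ⟨n ^ 5 + wit.getD n 0, by omega, g2, of_coprime (B := 1250) (by omega) ?_ g3⟩
    have : (n + 1) ^ 5 ≤ 300 ^ 5 := Nat.pow_le_pow_left (by omega) 5
    omega
  · interval_cases n
    · exact ⟨5, by norm_num, by norm_num, of_coprime (B := 4) (by norm_num) (by norm_num)
        (by decide +kernel)⟩
    · exact ⟨101, by norm_num, by norm_num, of_coprime (B := 10) (by norm_num) (by norm_num)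
        (by decide +kernel)⟩
    · exact ⟨821, by norm_num, by norm_num, of_coprime (B := 10) (by norm_num) (by norm_num)
        (by decide +kernel)⟩
    · exact ⟨1481, by norm_num, by norm_num, of_coprime (B := 10) (by norm_num) (by norm_num)
        (by decide +kernel)⟩

theorem main {n : ℕ} (h1 : 1 ≤ n) : ∃ m : ℕ, n ^ 5 < m ∧ m + 8 < (n + 1) ^ 5 ∧
    cardFactors (m * (m + 2) * (m + 6) * (m + 8)) ≤ 15 := by
  rcases lt_or_ge n 300 with h | h
  · obtain ⟨m, g1, g2, g3⟩ := small h1 h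
    exact ⟨m, g1, g2, by omega⟩
  · exact large h

end Pool.Agent.Lib.MP_c03ca8_nt
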