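import Pool.Agent.Lib.MP_c03ca8_nt.Main

/-!
Almost-prime quadruplets between all consecutive fifth powers.
-/

namespace Pool.Agent.Lib.MP_c03ca8_nt.OldAlmostPrime

theorem result (n : ℕ) (hn : 1 ≤ n) : ∃ m : ℕ, n ^ 5 < m ∧ m + 8 < (n + 1) ^ 5 ∧
    ArithmeticFunction.cardFactors (m * (m + 2) * (m + 6) * (m + 8)) ≤ 15 :=
  Pool.Agent.Lib.MP_c03ca8_nt.main hn

end Pool.Agent.Lib.MP_c03ca8_nt.OldAlmostPrime
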