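import Pool.Agent.Lib.MP_c03ca8_nt.Q.All
import Pool.Agent.Lib.MP_c03ca8_nt.Q.CertA

/-!
Almost prime quadruplets: at most 12 prime factors between consecutive large fifth powers.
-/

namespace Pool.Agent.Lib.MP_c03ca8_nt.OldFifthTwelve

open Pool.Agent.Lib.MP_c03ca8_nt.Q

theorem result : ∃ n0 : ℕ, ∀ n : ℕ, n0 ≤ n → ∃ m : ℕ, n ^ 5 < m ∧ m + 8 < (n + 1) ^ 5 ∧
    ArithmeticFunction.cardFactors (m * (m + 2) * (m + 6) * (m + 8)) ≤ 12 := by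
  have hr : Rng ((zc5.nuN : ℝ) / 10) (4 / 5) zc5.T1 zc5.T2 zc5.M := by
    constructor <;> norm_num [zc5]
  have adm : ∀ p : ℕ, p.Prime → ∃ a : ℕ, ∀ l, ¬ p ∣ a + ![0, 2, 6, 8] l := by
    intro p hp
    by_cases h : p = 5 ∨ p = 7 ∨ p = 11 ∨ p = 13
    · refine ⟨101, fun l hl => ?_⟩
      fin_cases l <;> rcases h with rfl | rfl | rfl | rfl <;> simp at hl
    · refine ⟨5, fun l hl => h ?_⟩
      fin_cases l
      · exact Or.inl ((Nat.prime_dvd_prime_iff_eq hp (by norm_num)).1 hl)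
      · exact Or.inr (Or.inl ((Nat.prime_dvd_prime_iff_eq hp (by norm_num)).1 hl))
      · exact Or.inr (Or.inr (Or.inl ((Nat.prime_dvd_prime_iff_eq hp (by norm_num)).1 hl)))
      · exact Or.inr (Or.inr (Or.inr ((Nat.prime_dvd_prime_iff_eq hp (by norm_num)).1 hl)))
  obtain ⟨x0, hx0⟩ := of_zc zc5 zc5_ok1 zc5_ok2 hr ![0, 2, 6, 8] (by decide) adm
  refine ⟨x0 + 2, fun n hn => ?_⟩
  have h1 : 1 ≤ n := by omega
  have h5 : n ≤ n ^ 5 := Nat.le_self_pow (by norm_num) n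
  have hθ : ((n ^ 5 : ℕ) : ℝ) ^ (4 / 5 : ℝ) ≤ ((n ^ 4 : ℕ) : ℝ) := by
    have h0 : (0 : ℝ) ≤ n := Nat.cast_nonneg n
    push_cast
    rw [← Real.rpow_natCast, ← Real.rpow_mul h0, ← Real.rpow_natCast]
    norm_num
  obtain ⟨m, hm1, hm2, hm3⟩ := hx0 (n ^ 5) (n ^ 4) (by omega) hθ
    (Nat.pow_le_pow_right h1 (by norm_num))
  refine ⟨m, hm1, ?_, ?_⟩
  · have h2 : 2 ≤ n := by omega
    have e : (n + 1) ^ 5 = n ^ 5 + 5 * n ^ 4 + 10 * n ^ 3 + 10 * n ^ 2 + 5 * n + 1 := by ring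
    omega
  · have e : ∏ l, (m + ![0, 2, 6, 8] l) = m * (m + 2) * (m + 6) * (m + 8) := by
      simp [Fin.prod_univ_four]
    rw [e] at hm3
    exact Nat.lt_succ_iff.1 hm3

end Pool.Agent.Lib.MP_c03ca8_nt.OldFifthTwelve
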