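import Pool.Agent.Lib.MP_c03ca8_nt.U.All

/-!
Every admissible set with at least `exp (4 m + 1 / 3)` elements has translates with `m + 1` primes in
a positive proportion of the intervals between consecutive fifth powers.
-/

namespace Pool.Agent.Lib.MP_c03ca8_nt.OldManyPrimes

theorem result : ∀ m : ℕ, 1 ≤ m → ∀ H : Finset ℕ, Real.exp (4 * m + 1 / 3) ≤ H.card →
    (∀ p : ℕ, p.Prime → ∃ a : ℕ, ∀ b ∈ H, ¬ p ∣ a + b) →
      ∃ c : ℝ, 0 < c ∧ ∃ N0 : ℕ, ∀ N : ℕ, N0 ≤ N →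
        c * N ≤ Set.ncard {n : ℕ | 1 ≤ n ∧ n ≤ N ∧ ∃ u : ℕ, n ^ 5 < u ∧
          m + 1 ≤ Set.ncard {b : ℕ | b ∈ H ∧ (u + b).Prime ∧ u + b < (n + 1) ^ 5}} := by
  intro m hm H hH adm
  obtain ⟨k, hk, hV⟩ := Pool.Agent.Lib.MP_c03ca8_nt.U.var_all hm hH
  exact Pool.Agent.Lib.MP_c03ca8_nt.U.of_var H hk hV adm

end Pool.Agent.Lib.MP_c03ca8_nt.OldManyPrimes
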