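import Pool.Agent.Lib.MP_c03ca8_nt.Q.All
import Pool.Agent.Lib.MP_c03ca8_nt.Q.CertB

/-!
At most 10 prime factors in every large dyadic interval for every admissible 4-tuple.
-/

namespace Pool.Agent.Lib.MP_c03ca8_nt.OldRecordTen

open Pool.Agent.Lib.MP_c03ca8_nt.Q

theorem result :
    ∀ h : Fin 4 → ℕ, Function.Injective h → (∀ p : ℕ, p.Prime → ∃ a : ℕ, ∀ l, ¬ p ∣ a + h l) →
      ∃ x0 : ℕ, ∀ x : ℕ, x0 ≤ x → ∃ m : ℕ, x < m ∧ m ≤ 2 * x ∧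
        ArithmeticFunction.cardFactors (∏ l, (m + h l)) ≤ 10 := by
  intro h hinj adm
  have hr : Rng ((zc1.nuN : ℝ) / 10) 1 zc1.T1 zc1.T2 zc1.M := by
    constructor <;> norm_num [zc1]
  obtain ⟨x0, hx0⟩ := of_zc zc1 zc1_ok1 zc1_ok2 hr h hinj adm
  refine ⟨x0, fun x hx => ?_⟩
  obtain ⟨m, hm1, hm2, hm3⟩ := hx0 x x hx (by simp) le_rfl
  exact ⟨m, hm1, by omega, Nat.lt_succ_iff.1 hm3⟩

end Pool.Agent.Lib.MP_c03ca8_nt.OldRecordTen
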