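import Pool.Agent.Lib.MP_c03ca8_nt.P3.All

/-!
A positive proportion of the intervals between consecutive fifth powers contain a translate of a
given admissible 4-tuple all of whose members have at most three prime factors.
-/

namespace Pool.Agent.Lib.MP_c03ca8_nt.OldThreeEach

theorem result :
    ∀ h : Fin 4 → ℕ, Function.Injective h → (∀ p : ℕ, p.Prime → ∃ a : ℕ, ∀ l, ¬ p ∣ a + h l) →
      ∃ c : ℝ, 0 < c ∧ ∃ N0 : ℕ, ∀ N : ℕ, N0 ≤ N →
        c * N ≤ Set.ncard {n : ℕ | 1 ≤ n ∧ n ≤ N ∧ ∃ m : ℕ, n ^ 5 < m ∧ ∀ l,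
          m + h l < (n + 1) ^ 5 ∧ ArithmeticFunction.cardFactors (m + h l) ≤ 3} := by
  classical
  intro h hinj adm
  obtain ⟨c, hc, N0, hN⟩ := Pool.Agent.Lib.MP_c03ca8_nt.P3.three h hinj adm
  refine ⟨c, hc, N0, fun N hN0 => (hN N hN0).trans (le_of_eq ?_)⟩
  rw [← Set.ncard_coe_finset]
  congr 2
  ext n
  simp only [Finset.coe_filter, Finset.mem_Icc, Set.mem_setOf_eq, and_assoc]

end Pool.Agent.Lib.MP_c03ca8_nt.OldThreeEach
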