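import Pool.Agent.Lib.MP_778b46_nt.Sieve

/-!
Counting residue classes for the pattern `0, 2, 6, 8`.
-/

open Finset

namespace Pool.Agent.Lib.MP_c03ca8_nt

open Pool.Agent.Lib.MP_778b46_nt (count_modEq exists_crt sum_ite_dvd)

/-- The product `s (s + 2) (s + 6) (s + 8)`. -/
def pi4 (s : ℤ) : ℤ := s * (s + 2) * (s + 6) * (s + 8)

/-- Indicator of `q ∣ pi4 s`. -/
noncomputable def jj (q : ℕ) (s : ℤ) : ℝ := if (q : ℤ) ∣ pi4 s then 1 else 0

/-- The residue class `c` modulo `Q` inside an interval of length `N`. -/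
noncomputable def cls (y : ℤ) (N Q : ℕ) (c : ℤ) : Finset ℤ := (Ioc y (y + N)).filter (fun s => s ≡ c [ZMOD Q])

lemma jj_nonneg (q : ℕ) (s : ℤ) : 0 ≤ jj q s := by
  unfold jj; split_ifs <;> norm_num

lemma jj_congr {q : ℕ} {s s' : ℤ} (h : s ≡ s' [ZMOD q]) : jj q s = jj q s' := by
  have h1 : pi4 s ≡ pi4 s' [ZMOD q] :=
    ((h.mul (h.add_right 2)).mul (h.add_right 6)).mul (h.add_right 8)
  unfold jj
  simp only [h1.dvd_iff]

lemma not_dvd_24 {p : ℕ} (hp : p.Prime) (h7 : 7 ≤ p) : ¬ (p : ℤ) ∣ 24 := by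
  intro h
  have h1 : p ∣ 24 := by exact_mod_cast h
  have h2 := Nat.le_of_dvd (by norm_num) h1
  interval_cases p <;> simp_all (config := {decide := true})

lemma dvd_pi4 {p a : ℕ} (hp : p.Prime) (h7 : 7 ≤ p) {s : ℤ} (h : (p : ℤ) ^ a ∣ pi4 s) :
    (p : ℤ) ^ a ∣ s ∨ (p : ℤ) ^ a ∣ s + 2 ∨ (p : ℤ) ^ a ∣ s + 6 ∨ (p : ℤ) ^ a ∣ s + 8 := by
  have hpi : Prime (p : ℤ) := Nat.prime_iff_prime_int.mp hp
  have h24 := not_dvd_24 hp h7
  have key : ∀ u v k : ℤ, (u - v) * k = 24 → (p : ℤ) ∣ u → ¬ (p : ℤ) ∣ v := by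
    intro u v k hk hu hv
    exact h24 (hk ▸ (dvd_sub hu hv).mul_right k)
  unfold pi4 at h
  by_cases h8 : (p : ℤ) ∣ s + 8
  · right; right; right
    refine hpi.pow_dvd_of_dvd_mul_left a ?_ h
    simp only [hpi.dvd_mul, not_or]
    exact ⟨⟨key _ _ 3 (by ring) h8, key _ _ 4 (by ring) h8⟩, key _ _ 12 (by ring) h8⟩
  have h := hpi.pow_dvd_of_dvd_mul_right a h8 h
  by_cases h6 : (p : ℤ) ∣ s + 6
  · right; right; left
    refine hpi.pow_dvd_of_dvd_mul_left a ?_ h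
    simp only [hpi.dvd_mul, not_or]
    exact ⟨key _ _ 4 (by ring) h6, key _ _ 6 (by ring) h6⟩
  have h := hpi.pow_dvd_of_dvd_mul_right a h6 h
  by_cases h2 : (p : ℤ) ∣ s + 2
  · right; left
    exact hpi.pow_dvd_of_dvd_mul_left a (key _ _ 12 (by ring) h2) h
  · left
    exact hpi.pow_dvd_of_dvd_mul_right a h2 h

lemma jj_eq {p a : ℕ} (hp : p.Prime) (h7 : 7 ≤ p) (ha : 1 ≤ a) (s : ℤ) :
    jj (p ^ a) s = (if ((p ^ a : ℕ) : ℤ) ∣ s + 0 then 1 else 0) +
      (if ((p ^ a : ℕ) : ℤ) ∣ s + 2 then 1 else 0) + (if ((p ^ a : ℕ) : ℤ) ∣ s + 6 then 1 else 0) +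
      (if ((p ^ a : ℕ) : ℤ) ∣ s + 8 then 1 else 0) := by
  have h24 := not_dvd_24 hp h7
  have key : ∀ u v k : ℤ, (u - v) * k = 24 → (p : ℤ) ^ a ∣ u → ¬ (p : ℤ) ^ a ∣ v := by
    intro u v k hk hu hv
    exact h24 (hk ▸ ((dvd_pow_self _ (by omega)).trans (dvd_sub hu hv)).mul_right k)
  unfold jj
  simp only [Nat.cast_pow, add_zero]
  by_cases h : (p : ℤ) ^ a ∣ pi4 s
  · rw [if_pos h]
    rcases dvd_pi4 hp h7 h with h1 | h1 | h1 | h1
    · rw [if_pos h1, if_neg (key _ _ (-12) (by ring) h1), if_neg (key _ _ (-4) (by ring) h1),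
        if_neg (key _ _ (-3) (by ring) h1)]
      norm_num
    · rw [if_pos h1, if_neg (key _ _ 12 (by ring) h1), if_neg (key _ _ (-6) (by ring) h1),
        if_neg (key _ _ (-4) (by ring) h1)]
      norm_num
    · rw [if_pos h1, if_neg (key _ _ 4 (by ring) h1), if_neg (key _ _ 6 (by ring) h1),
        if_neg (key _ _ (-12) (by ring) h1)]
      norm_num
    · rw [if_pos h1, if_neg (key _ _ 3 (by ring) h1), if_neg (key _ _ 4 (by ring) h1),
        if_neg (key _ _ 12 (by ring) h1)]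
      norm_num
  · rw [if_neg h, if_neg, if_neg, if_neg, if_neg]
    · norm_num
    all_goals
      intro h1
      apply h
      unfold pi4
    · exact h1.mul_left _
    · exact (h1.mul_left _).mul_right _
    · exact ((h1.mul_left _).mul_right _).mul_right _
    · exact ((h1.mul_right _).mul_right _).mul_right _

lemma sum_jj {p a : ℕ} (hp : p.Prime) (h7 : 7 ≤ p) (ha : 1 ≤ a) :
    ∑ z ∈ range (p ^ a), jj (p ^ a) z = 4 := by
  have h0 : 0 < p ^ a := pow_pos hp.pos a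
  simp only [jj_eq hp h7 ha, sum_add_distrib, sum_ite_dvd h0]
  norm_num

lemma split_sum {Q q : ℕ} (hq : 0 < q) (h : Nat.Coprime Q q) (c y : ℤ) (N : ℕ) :
    ∃ v : ℕ → ℤ, ∀ F : ℤ → ℝ, ∑ s ∈ cls y N Q c, jj q s * F s =
      ∑ z ∈ range q, jj q z * ∑ s ∈ cls y N (Q * q) (v z), F s := by
  have hl0 : (0 : ℤ) < q := by exact_mod_cast hq
  choose v hv using fun z : ℕ => exists_crt h c z
  refine ⟨v, fun F => ?_⟩
  unfold cls
  rw [← sum_fiberwise_of_maps_to (g := fun s : ℤ => (s % q).toNat) (t := range q)]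
  · refine sum_congr rfl fun z hz => ?_
    rw [mul_sum, filter_filter]
    have hz' : (z : ℤ) % q = z :=
      Int.emod_eq_of_lt (by positivity) (by exact_mod_cast mem_range.mp hz)
    have hiff : ∀ s : ℤ, (s % q).toNat = z ↔ s ≡ z [ZMOD q] := by
      intro s
      have := Int.emod_nonneg s hl0.ne'
      unfold Int.ModEq
      rw [hz']; omega
    refine sum_congr (filter_congr fun s _ => by rw [hiff, hv]) fun s hs => ?_
    rw [jj_congr (((hv z s).mpr (mem_filter.mp hs).2).2)]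
  · intro s _
    have h1 := Int.emod_nonneg s hl0.ne'
    have h2 := Int.emod_lt_of_pos s hl0
    rw [mem_range]; omega

/-- Sum over a residue class of a product of functions `c + e * jj l`. -/
lemma sum_prod (c e : ℕ → ℝ) (y : ℤ) (N : ℕ) (U : Finset ℕ) (hU : ∀ l ∈ U, l.Prime ∧ 7 ≤ l) :
    ∀ (Q : ℕ) (c0 : ℤ), 0 < Q → (∀ l ∈ U, Nat.Coprime Q l) →
    |∑ s ∈ cls y N Q c0, ∏ l ∈ U, (c l + e l * jj l s)
      - N / Q * ∏ l ∈ U, (c l + 4 * e l / l)| ≤ ∏ l ∈ U, (|c l| + 4 * |e l|) := by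
  induction U using Finset.induction_on with
  | empty =>
    intro Q c0 hQ _
    simpa [cls] using count_modEq Q hQ c0 y N
  | insert l U hl ih =>
    intro Q c0 hQ hco
    obtain ⟨hlp, hl7⟩ := hU l (mem_insert_self _ _)
    have hlr : (0 : ℝ) < l := by exact_mod_cast hlp.pos
    have hQr : (0 : ℝ) < Q := by exact_mod_cast hQ
    have ih' := ih (fun m hm => hU m (mem_insert_of_mem hm))
    simp only [prod_insert hl]
    obtain ⟨v, hv⟩ := split_sum hlp.pos (hco l (mem_insert_self _ _)) c0 y N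
    set F : ℤ → ℝ := fun s => ∏ m ∈ U, (c m + e m * jj m s) with hF
    set M : ℝ := ∏ m ∈ U, (c m + 4 * e m / m) with hM
    set E : ℝ := ∏ m ∈ U, (|c m| + 4 * |e m|) with hE
    have h4 : ∑ z ∈ range l, jj l z = 4 := by simpa using sum_jj hlp hl7 le_rfl
    have h1 := ih' Q c0 hQ (fun m hm => hco m (mem_insert_of_mem hm))
    have h2 : ∀ z, |∑ s ∈ cls y N (Q * l) (v z), F s - N / ((Q * l : ℕ) : ℝ) * M| ≤ E := by
      intro z
      refine ih' (Q * l) (v z) (Nat.mul_pos hQ hlp.pos) fun m hm => ?_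
      refine Nat.Coprime.mul_left (hco m (mem_insert_of_mem hm)) ?_
      rw [Nat.coprime_primes hlp (hU m (mem_insert_of_mem hm)).1]
      rintro rfl; exact hl hm
    have e1 : ∑ s ∈ cls y N Q c0, (c l + e l * jj l s) * F s - N / Q * ((c l + 4 * e l / l) * M) =
        c l * (∑ s ∈ cls y N Q c0, F s - N / Q * M) + e l * ∑ z ∈ range l, jj l z *
          (∑ s ∈ cls y N (Q * l) (v z), F s - N / ((Q * l : ℕ) : ℝ) * M) := by
      simp only [mul_sub, sum_sub_distrib, ← hv F, ← sum_mul, h4, add_mul, sum_add_distrib,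
        mul_assoc, ← mul_sum]
      push_cast
      field_simp
      ring
    rw [e1]
    have h3 : |∑ z ∈ range l, jj l z *
        (∑ s ∈ cls y N (Q * l) (v z), F s - N / ((Q * l : ℕ) : ℝ) * M)| ≤ 4 * E := by
      refine (abs_sum_le_sum_abs _ _).trans ?_
      rw [← h4, sum_mul]
      refine sum_le_sum fun z _ => ?_
      rw [abs_mul, abs_of_nonneg (jj_nonneg _ _)]
      exact mul_le_mul_of_nonneg_left (h2 z) (jj_nonneg _ _)
    calc _ ≤ |c l| * E + |e l| * (4 * E) := by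
          refine (abs_add_le _ _).trans ?_
          rw [abs_mul, abs_mul]
          gcongr
      _ = _ := by ring

end Pool.Agent.Lib.MP_c03ca8_nt
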