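import Pool.Agent.Lib.MP_c03ca8_nt.Period

/-!
The Selberg square in orthogonal form: main term and remainder.
-/

open Finset

namespace Pool.Agent.Lib.MP_c03ca8_nt

/-- `4 / (l - 4)`. -/
noncomputable def hh (l : ℕ) : ℝ := 4 / ((l : ℝ) - 4)

/-- Remainder weight of a prime. -/
noncomputable def kk (l : ℕ) : ℝ := hh l + 4 * (1 + hh l)

/-- Centred indicator of `l ∣ pi4 s`. -/
noncomputable def psi (l : ℕ) (s : ℤ) : ℝ := hh l - (1 + hh l) * jj l s

/-- The Selberg sum with coefficients `y`. -/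
noncomputable def theta (P : Finset ℕ) (y : Finset ℕ → ℝ) (s : ℤ) : ℝ :=
  ∑ r ∈ P.powerset, y r * ∏ l ∈ r, psi l s

/-- The diagonal main term. -/
noncomputable def mainT (P : Finset ℕ) (y : Finset ℕ → ℝ) : ℝ :=
  ∑ r ∈ P.powerset, (∏ l ∈ r, hh l) * y r ^ 2

/-- The remainder sum. -/
noncomputable def lam (P : Finset ℕ) (y : Finset ℕ → ℝ) : ℝ :=
  ∑ r ∈ P.powerset, |y r| * ∏ l ∈ r, kk l

lemma hh_pos {l : ℕ} (h7 : 7 ≤ l) : 0 < hh l := by
  have : (7 : ℝ) ≤ l := by exact_mod_cast h7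
  unfold hh
  apply div_pos <;> linarith

lemma kk_pos {l : ℕ} (h7 : 7 ≤ l) : 0 < kk l := by
  have := hh_pos h7
  unfold kk
  positivity

lemma jj_cases (q : ℕ) (s : ℤ) : jj q s = 0 ∨ jj q s = 1 := by
  unfold jj; split_ifs <;> simp

lemma prod_ite_mem' {P r : Finset ℕ} (h : r ⊆ P) (f : ℕ → ℝ) :
    ∏ l ∈ r, f l = ∏ l ∈ P, if l ∈ r then f l else 1 := by
  rw [prod_ite_mem, inter_eq_right.mpr h]

lemma pair_bound {P r r' : Finset ℕ} (hP : ∀ l ∈ P, l.Prime ∧ 7 ≤ l) (hr : r ⊆ P) (hr' : r' ⊆ P)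
    (y : ℤ) (N Q : ℕ) (c0 : ℤ) (hQ : 0 < Q) (hco : ∀ l ∈ P, Nat.Coprime Q l) :
    |∑ s ∈ cls y N Q c0, (∏ l ∈ r, psi l s) * (∏ l ∈ r', psi l s)
      - N / Q * (if r = r' then ∏ l ∈ r, hh l else 0)| ≤ (∏ l ∈ r, kk l) * ∏ l ∈ r', kk l := by
  set c : ℕ → ℝ := fun l => (if l ∈ r then hh l else 1) * (if l ∈ r' then hh l else 1) with hc
  set e : ℕ → ℝ := fun l => if l ∈ r then (if l ∈ r' then 1 - hh l ^ 2 else -(1 + hh l))
    else (if l ∈ r' then -(1 + hh l) else 0) with he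
  have h := sum_prod c e y N P hP Q c0 hQ hco
  have e1 : ∀ s, (∏ l ∈ r, psi l s) * (∏ l ∈ r', psi l s) = ∏ l ∈ P, (c l + e l * jj l s) := by
    intro s
    rw [prod_ite_mem' hr, prod_ite_mem' hr', ← prod_mul_distrib]
    refine prod_congr rfl fun l _ => ?_
    simp only [hc, he, psi]
    rcases jj_cases l s with h0 | h0 <;> rw [h0] <;> split_ifs <;> ring
  have e2 : ∀ l ∈ P, c l + 4 * e l / l =
      if l ∈ r then (if l ∈ r' then hh l else 0) else (if l ∈ r' then 0 else 1) := by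
    intro l hl
    have h7 : (7 : ℝ) ≤ l := by exact_mod_cast (hP l hl).2
    have h1 : (l : ℝ) ≠ 0 := by linarith
    have h2 : (l : ℝ) - 4 ≠ 0 := by linarith
    simp only [hc, he, hh]
    split_ifs <;> field_simp <;> ring
  have e3 : ∏ l ∈ P, (c l + 4 * e l / l) = if r = r' then ∏ l ∈ r, hh l else 0 := by
    rw [prod_congr rfl e2]
    split_ifs with hrr
    · subst hrr
      rw [prod_ite_mem' hr]
      exact prod_congr rfl fun l _ => by split_ifs <;> rfl
    · have : ∃ l, ¬ (l ∈ r ↔ l ∈ r') := by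
        by_contra hcon
        push Not at hcon
        exact hrr (Finset.ext hcon)
      obtain ⟨l, hl⟩ := this
      by_cases h1 : l ∈ r
      · exact prod_eq_zero (hr h1) (by rw [if_pos h1, if_neg (by tauto)])
      · have h2 : l ∈ r' := by tauto
        exact prod_eq_zero (hr' h2) (by rw [if_neg h1, if_pos h2])
  have e4 : ∏ l ∈ P, (|c l| + 4 * |e l|) ≤ (∏ l ∈ r, kk l) * ∏ l ∈ r', kk l := by
    rw [prod_ite_mem' hr, prod_ite_mem' hr', ← prod_mul_distrib]
    refine prod_le_prod (fun l _ => by positivity) fun l hl => ?_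
    have h0 := hh_pos (hP l hl).2
    simp only [hc, he, kk]
    split_ifs
    · have h1 : |1 - hh l ^ 2| ≤ 1 + hh l ^ 2 := by
        rw [abs_le]; constructor <;> nlinarith
      rw [abs_of_pos (by positivity)]
      nlinarith
    · rw [abs_neg, abs_of_pos (by positivity), abs_of_pos (by positivity)]; linarith
    · rw [abs_neg, abs_of_pos (by positivity), abs_of_pos (by positivity)]; linarith
    · simp
  simp only [e1]
  rw [← e3]
  exact h.trans e4

lemma sum_theta_sq {P : Finset ℕ} (hP : ∀ l ∈ P, l.Prime ∧ 7 ≤ l) (w : Finset ℕ → ℝ)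
    (y : ℤ) (N Q : ℕ) (c0 : ℤ) (hQ : 0 < Q) (hco : ∀ l ∈ P, Nat.Coprime Q l) :
    |∑ s ∈ cls y N Q c0, theta P w s ^ 2 - N / Q * mainT P w| ≤ lam P w ^ 2 := by
  have e1 : ∑ s ∈ cls y N Q c0, theta P w s ^ 2 = ∑ r ∈ P.powerset, ∑ r' ∈ P.powerset,
      w r * w r' * ∑ s ∈ cls y N Q c0, (∏ l ∈ r, psi l s) * (∏ l ∈ r', psi l s) := by
    simp only [theta, sq, sum_mul_sum]
    simp only [mul_sum]
    rw [sum_comm]
    refine sum_congr rfl fun r _ => ?_
    rw [sum_comm]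
    exact sum_congr rfl fun r' _ => sum_congr rfl fun s _ => by ring
  have e2 : N / Q * mainT P w = ∑ r ∈ P.powerset, ∑ r' ∈ P.powerset,
      w r * w r' * (N / Q * (if r = r' then ∏ l ∈ r, hh l else 0)) := by
    rw [mainT, mul_sum]
    refine sum_congr rfl fun r hr => ?_
    rw [sum_eq_single_of_mem r hr (fun r' _ hne => by rw [if_neg hne.symm]; ring), if_pos rfl]
    ring
  rw [e1, e2, ← sum_sub_distrib, lam, sq, sum_mul_sum]
  refine (abs_sum_le_sum_abs _ _).trans (sum_le_sum fun r hr => ?_)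
  rw [← sum_sub_distrib]
  refine (abs_sum_le_sum_abs _ _).trans (sum_le_sum fun r' hr' => ?_)
  rw [← mul_sub, abs_mul, abs_mul]
  calc _ ≤ |w r| * |w r'| * ((∏ l ∈ r, kk l) * ∏ l ∈ r', kk l) :=
        mul_le_mul_of_nonneg_left (pair_bound hP (mem_powerset.mp hr) (mem_powerset.mp hr')
          y N Q c0 hQ hco) (by positivity)
    _ = _ := by ring

/-- Upper bound for the Selberg square along `p ^ a ∣ pi4 s`, for `p` outside `P`. -/
lemma sum_jj_theta_sq {P : Finset ℕ} (hP : ∀ l ∈ P, l.Prime ∧ 7 ≤ l) (w : Finset ℕ → ℝ)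
    (y : ℤ) (N Q : ℕ) (c0 : ℤ) (hQ : 0 < Q) (hco : ∀ l ∈ P, Nat.Coprime Q l) {p a : ℕ}
    (hp : p.Prime) (h7 : 7 ≤ p) (ha : 1 ≤ a) (hpP : p ∉ P) (hQp : Nat.Coprime Q p) :
    ∑ s ∈ cls y N Q c0, jj (p ^ a) s * theta P w s ^ 2 ≤
      4 * (N / Q / p ^ a * mainT P w + lam P w ^ 2) := by
  have h0 : 0 < p ^ a := pow_pos hp.pos a
  obtain ⟨v, hv⟩ := split_sum h0 (hQp.pow_right a) c0 y N
  rw [hv, ← sum_jj hp h7 ha, sum_mul]
  refine sum_le_sum fun z _ => mul_le_mul_of_nonneg_left ?_ (jj_nonneg _ _)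
  have h := sum_theta_sq hP w y N (Q * p ^ a) (v z) (Nat.mul_pos hQ h0) (fun l hl => by
    refine Nat.Coprime.mul_left (hco l hl) (Nat.Coprime.pow_left a ?_)
    rw [Nat.coprime_primes hp (hP l hl).1]
    rintro rfl; exact hpP hl)
  have e : (N : ℝ) / ((Q * p ^ a : ℕ) : ℝ) = N / Q / p ^ a := by
    push_cast; rw [div_div]
  rw [e] at h
  linarith [(abs_le.mp h).2]

/-- On `p ^ a ∣ pi4 s` the Selberg sum collapses to one over `P.erase p`. -/
lemma jj_theta_erase {P : Finset ℕ} (w : Finset ℕ → ℝ) {p a : ℕ} (ha : 1 ≤ a) (hpP : p ∈ P)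
    (s : ℤ) : jj (p ^ a) s * theta P w s ^ 2 =
      jj (p ^ a) s * theta (P.erase p) (fun r => w r - w (insert p r)) s ^ 2 := by
  by_cases h : ((p ^ a : ℕ) : ℤ) ∣ pi4 s
  · have h1 : (p : ℤ) ∣ pi4 s := by
      refine dvd_trans ?_ h
      push_cast
      exact dvd_pow_self _ (by omega)
    have h2 : psi p s = -1 := by
      unfold psi jj
      rw [if_pos h1]; ring
    congr 2
    unfold theta
    conv_lhs => rw [← insert_erase hpP]
    rw [sum_powerset_insert (notMem_erase p P), ← sum_add_distrib]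
    refine sum_congr rfl fun r hr => ?_
    have h3 : p ∉ r := fun hc => notMem_erase p P (mem_powerset.mp hr hc)
    rw [prod_insert h3, h2]
    ring
  · unfold jj
    rw [if_neg h, zero_mul, zero_mul]

end Pool.Agent.Lib.MP_c03ca8_nt
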